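import Pool.Agent.helper19.EL.Curve

/-!
# EL: the evolution equations

`v_t = F k v`, `T_t = - F_s N`, `(k v)_t = - (F_s)_u`.
-/

set_option autoImplicit false

open scoped Real ContDiff ComplexConjugate InnerProductSpace

namespace Pool.Agent.helper19.EL

/-- the curve at time `t` -/
def sl (γ : ℝ → ℝ → ℂ) (t : ℝ) : ℝ → ℂ := fun u => γ u t

noncomputable def fv (γ : ℝ → ℝ → ℂ) (u t : ℝ) : ℝ := speed (sl γ t) u
noncomputable def fT (γ : ℝ → ℝ → ℂ) (u t : ℝ) : ℂ := tang (sl γ t) u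
noncomputable def fk (γ : ℝ → ℝ → ℂ) (u t : ℝ) : ℝ := curv (sl γ t) u
noncomputable def fk1 (γ : ℝ → ℝ → ℂ) (u t : ℝ) : ℝ := dsR (sl γ t) (curv (sl γ t)) u
noncomputable def fk2 (γ : ℝ → ℝ → ℂ) (u t : ℝ) : ℝ :=
  dsR (sl γ t) (dsR (sl γ t) (curv (sl γ t))) u
noncomputable def fF (γ : ℝ → ℝ → ℂ) (u t : ℝ) : ℝ := elF (sl γ t) u
noncomputable def fF1 (γ : ℝ → ℝ → ℂ) (u t : ℝ) : ℝ := dsR (sl γ t) (elF (sl γ t)) u

variable {γ : ℝ → ℝ → ℂ} {T : ℝ}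

section algebra

variable {f g : ℝ → ℝ → ℝ}

theorem Sm.div (hf : Sm T f) (hg : Sm T g) (h0 : ∀ t ∈ Set.Ico 0 T, ∀ u, g u t ≠ 0) :
    Sm T (fun u t => f u t / g u t) :=
  ContDiffOn.div hf hg (fun p hp => h0 p.2 hp.2 p.1)

theorem Sm.mul (hf : Sm T f) (hg : Sm T g) : Sm T (fun u t => f u t * g u t) :=
  ContDiffOn.mul hf hg

theorem Sm.add (hf : Sm T f) (hg : Sm T g) : Sm T (fun u t => f u t + g u t) :=
  ContDiffOn.add hf hg

theorem Sm.pow (hf : Sm T f) (n : ℕ) : Sm T (fun u t => f u t ^ n) :=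
  ContDiffOn.pow hf n

end algebra

namespace IsFlow

variable (h : IsFlow γ T)
include h

theorem sm : Sm T γ := h.smooth

theorem ne {t : ℝ} (ht : t ∈ Set.Ico 0 T) (u : ℝ) : deriv (sl γ t) u ≠ 0 := h.immersed t ht u

theorem v_pos {t : ℝ} (ht : t ∈ Set.Ico 0 T) (u : ℝ) : 0 < fv γ u t := speed_pos (h.ne ht u)

theorem sm_v : Sm T (fv γ) :=
  ContDiffOn.norm ℝ h.sm.pu (fun p hp => h.ne hp.2 p.1)

theorem sm_T : Sm T (fT γ) := by
  have h1 : ContDiffOn ℝ ∞ (fun p : ℝ × ℝ => (fv γ p.1 p.2)⁻¹ • pu γ p.1 p.2)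
      (Set.univ ×ˢ Set.Ico 0 T) :=
    (ContDiffOn.inv h.sm_v (fun p hp => (h.v_pos hp.2 p.1).ne')).smul h.sm.pu
  refine h1.congr fun p _ => ?_
  unfold fT fv tang dsC
  rw [Complex.real_smul, Complex.ofReal_inv, div_eq_inv_mul]
  rfl

theorem sm_k : Sm T (fk γ) := by
  have h2 : ContDiffOn ℝ ∞ (fun p : ℝ × ℝ => (fv γ p.1 p.2)⁻¹ • pu (fT γ) p.1 p.2)
      (Set.univ ×ˢ Set.Ico 0 T) :=
    (ContDiffOn.inv h.sm_v (fun p hp => (h.v_pos hp.2 p.1).ne')).smul h.sm_T.pu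
  have h3 : ContDiffOn ℝ ∞ (fun p : ℝ × ℝ => Complex.I * fT γ p.1 p.2)
      (Set.univ ×ˢ Set.Ico 0 T) := contDiffOn_const.mul h.sm_T
  refine (h2.inner ℝ h3).congr fun p _ => ?_
  unfold fk curv dsC nor
  rw [Complex.real_smul, Complex.ofReal_inv, ← div_eq_inv_mul]
  rfl

theorem sm_k1 : Sm T (fk1 γ) := h.sm_k.pu.div h.sm_v fun _ ht u => (h.v_pos ht u).ne'

theorem sm_k2 : Sm T (fk2 γ) := h.sm_k1.pu.div h.sm_v fun _ ht u => (h.v_pos ht u).ne'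

theorem sm_F : Sm T (fF γ) :=
  ContDiffOn.add h.sm_k2 (ContDiffOn.div_const (ContDiffOn.pow h.sm_k 3) 2)

theorem sm_F1 : Sm T (fF1 γ) := h.sm_F.pu.div h.sm_v fun _ ht u => (h.v_pos ht u).ne'

theorem T_ne {t : ℝ} (ht : t ∈ Set.Ico 0 T) (u : ℝ) : fT γ u t ≠ 0 := by
  intro h0
  have := norm_tang (h.ne ht u)
  unfold fT at h0
  rw [h0, norm_zero] at this
  norm_num at this

theorem TT {t : ℝ} (ht : t ∈ Set.Ico 0 T) (u : ℝ) : fT γ u t * conj (fT γ u t) = 1 :=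
  tang_mul_conj (h.ne ht u)

/-! derivatives in `u` -/

theorem pu_γ {t : ℝ} (ht : t ∈ Set.Ico 0 T) (u : ℝ) : pu γ u t = (fv γ u t : ℂ) * fT γ u t :=
  deriv_c (h.ne ht u)

theorem pu_T {t : ℝ} (ht : t ∈ Set.Ico 0 T) (u : ℝ) :
    pu (fT γ) u t = ((fk γ u t * fv γ u t : ℝ) : ℂ) * (Complex.I * fT γ u t) :=
  deriv_tang (Filter.Eventually.of_forall fun y => h.ne ht y)
    (h.sm_T.hasDerivAt_u ht u).differentiableAt

theorem pu_k {t : ℝ} (ht : t ∈ Set.Ico 0 T) (u : ℝ) : pu (fk γ) u t = fv γ u t * fk1 γ u t := by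
  have h0 := (h.v_pos ht u).ne'
  have h1 : fk1 γ u t = pu (fk γ) u t / fv γ u t := rfl
  rw [h1, mul_div_cancel₀ _ h0]

theorem pu_k1 {t : ℝ} (ht : t ∈ Set.Ico 0 T) (u : ℝ) :
    pu (fk1 γ) u t = fv γ u t * fk2 γ u t := by
  have h0 := (h.v_pos ht u).ne'
  have h1 : fk2 γ u t = pu (fk1 γ) u t / fv γ u t := rfl
  rw [h1, mul_div_cancel₀ _ h0]

theorem pu_F {t : ℝ} (ht : t ∈ Set.Ico 0 T) (u : ℝ) : pu (fF γ) u t = fv γ u t * fF1 γ u t := by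
  have h0 := (h.v_pos ht u).ne'
  have h1 : fF1 γ u t = pu (fF γ) u t / fv γ u t := rfl
  rw [h1, mul_div_cancel₀ _ h0]

/-! derivatives in `t` -/

theorem pt_γ {t : ℝ} (ht : t ∈ Set.Ioo 0 T) (u : ℝ) :
    pt γ u t = -(fF γ u t : ℂ) * (Complex.I * fT γ u t) := h.flow t ht u

/-- the derivative of `γ_u` in `t`, computed in two ways -/
theorem mixed {t : ℝ} (ht : t ∈ Set.Ioo 0 T) (u : ℝ) :
    ((pt (fv γ) u t : ℝ) : ℂ) * fT γ u t + fv γ u t * pt (fT γ) u t =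
      ((fF γ u t * fk γ u t * fv γ u t : ℝ) - ((pu (fF γ) u t : ℝ) : ℂ) * Complex.I) *
        fT γ u t := by
  have ht' : t ∈ Set.Ico 0 T := ⟨ht.1.le, ht.2⟩
  -- first way
  have h1 : HasDerivAt (fun t' => pu γ u t')
      (((pt (fv γ) u t : ℝ) : ℂ) * fT γ u t + fv γ u t * pt (fT γ) u t) t := by
    have h2 := (h.sm_v.hasDerivAt_t ht u).ofReal_comp.mul (h.sm_T.hasDerivAt_t ht u)
    refine h2.congr_of_eventuallyEq ?_
    filter_upwards [Ioo_mem_nhds ht.1 ht.2] with t' ht'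
    exact h.pu_γ ⟨ht'.1.le, ht'.2⟩ u
  have h3 : pt (pu γ) u t = ((pt (fv γ) u t : ℝ) : ℂ) * fT γ u t + fv γ u t * pt (fT γ) u t := h1.deriv
  -- second way
  have h4 := h.sm.comm ht u
  have h5 : HasDerivAt (fun u' => pt γ u' t)
      (-((pu (fF γ) u t : ℝ) : ℂ) * (Complex.I * fT γ u t) +
        -(fF γ u t : ℂ) * (Complex.I * pu (fT γ) u t)) u := by
    have h6 := ((h.sm_F.hasDerivAt_u ht' u).ofReal_comp.neg).mul
      ((h.sm_T.hasDerivAt_u ht' u).const_mul Complex.I)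
    refine h6.congr_of_eventuallyEq (Filter.Eventually.of_forall fun u' => ?_)
    exact h.pt_γ ht u'
  have h7 := h4.unique h5
  rw [h3, h.pu_T ht'] at h7
  rw [h7]
  push_cast
  linear_combination (-(fF γ u t : ℂ) * (fk γ u t * fv γ u t) * fT γ u t) * Complex.I_mul_I

theorem re_pt_T {t : ℝ} (ht : t ∈ Set.Ioo 0 T) (u : ℝ) :
    (pt (fT γ) u t * conj (fT γ u t)).re = 0 := by
  refine re_deriv_unit (h.sm_T.hasDerivAt_t ht u) ?_
  filter_upwards [Ioo_mem_nhds ht.1 ht.2] with t' ht'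
  exact h.TT ⟨ht'.1.le, ht'.2⟩ u

theorem pt_v {t : ℝ} (ht : t ∈ Set.Ioo 0 T) (u : ℝ) :
    pt (fv γ) u t = fF γ u t * fk γ u t * fv γ u t := by
  have ht' : t ∈ Set.Ico 0 T := ⟨ht.1.le, ht.2⟩
  have h1 := congrArg (fun z => (z * conj (fT γ u t)).re) (h.mixed ht u)
  have h2 := h.re_pt_T ht u
  have h3 := h.TT ht' u
  simp only [add_mul, sub_mul] at h1
  rw [mul_assoc, h3, mul_assoc, mul_assoc, h3, mul_assoc _ (fT γ u t), h3] at h1
  simp only [mul_one, Complex.add_re, Complex.sub_re, Complex.ofReal_re, Complex.mul_re,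
    Complex.ofReal_im, Complex.I_re, Complex.I_im, zero_mul, sub_zero, mul_zero] at h1
  rw [← Complex.mul_re, h2, mul_zero, add_zero] at h1
  exact h1

theorem pt_T {t : ℝ} (ht : t ∈ Set.Ioo 0 T) (u : ℝ) :
    pt (fT γ) u t = -(fF1 γ u t : ℂ) * (Complex.I * fT γ u t) := by
  have ht' : t ∈ Set.Ico 0 T := ⟨ht.1.le, ht.2⟩
  have h1 := h.mixed ht u
  rw [h.pt_v ht u, h.pu_F ht' u] at h1
  have h0 : (fv γ u t : ℂ) ≠ 0 := by exact_mod_cast (h.v_pos ht' u).ne'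
  apply mul_left_cancel₀ h0
  push_cast at h1
  linear_combination h1

/-- the evolution of `k ds` -/
theorem pt_kv {t : ℝ} (ht : t ∈ Set.Ioo 0 T) (u : ℝ) :
    pt (fun u t => fk γ u t * fv γ u t) u t = -pu (fF1 γ) u t := by
  have ht' : t ∈ Set.Ico 0 T := ⟨ht.1.le, ht.2⟩
  have hkv : Sm T (fun u t => fk γ u t * fv γ u t) := h.sm_k.mul h.sm_v
  -- first way
  have h1 : HasDerivAt (fun t' => pu (fT γ) u t')
      (((pt (fun u t => fk γ u t * fv γ u t) u t : ℝ) : ℂ) * (Complex.I * fT γ u t) +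
        ((fk γ u t * fv γ u t : ℝ) : ℂ) * (Complex.I * pt (fT γ) u t)) t := by
    have h2 := (hkv.hasDerivAt_t ht u).ofReal_comp.mul
      ((h.sm_T.hasDerivAt_t ht u).const_mul Complex.I)
    refine h2.congr_of_eventuallyEq ?_
    filter_upwards [Ioo_mem_nhds ht.1 ht.2] with t' ht'
    exact h.pu_T ⟨ht'.1.le, ht'.2⟩ u
  have h3 : pt (pu (fT γ)) u t = _ := h1.deriv
  -- second way
  have h4 := h.sm_T.comm ht u
  have h5 : HasDerivAt (fun u' => pt (fT γ) u' t)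
      (-((pu (fF1 γ) u t : ℝ) : ℂ) * (Complex.I * fT γ u t) +
        -(fF1 γ u t : ℂ) * (Complex.I * pu (fT γ) u t)) u := by
    have h6 := ((h.sm_F1.hasDerivAt_u ht' u).ofReal_comp.neg).mul
      ((h.sm_T.hasDerivAt_u ht' u).const_mul Complex.I)
    refine h6.congr_of_eventuallyEq (Filter.Eventually.of_forall fun u' => ?_)
    exact h.pt_T ht u'
  have h7 := h4.unique h5
  rw [h3, h.pu_T ht', h.pt_T ht] at h7
  have hT := h.T_ne ht' u
  have h8 : ((pt (fun u t => fk γ u t * fv γ u t) u t : ℝ) : ℂ) * (Complex.I * fT γ u t) =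
      ((-pu (fF1 γ) u t : ℝ) : ℂ) * (Complex.I * fT γ u t) := by
    push_cast at h7 ⊢
    linear_combination h7
  have h9 := mul_right_cancel₀ (mul_ne_zero Complex.I_ne_zero hT) h8
  exact_mod_cast h9

end IsFlow

end Pool.Agent.helper19.EL
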