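import Pool.Agent.helper19.EL.Defs

/-!
# EL: calculus for 1-periodic functions

* `int_der`: the integral over a period of the derivative of a periodic function vanishes.
* `cs`: the Cauchy-Schwarz inequality for integrals with a weight.
* `sup_bound`: `f (u₀) = ∫ (S u - 1/2) f' u du` over `[u₀, u₀ + 1]`, `S u = ∫_{u₀}^u ρ`, and
  `∫ (S - 1/2)² ρ = 1 / 12`.
-/

set_option autoImplicit false

open scoped Real
open MeasureTheory intervalIntegral

namespace Pool.Agent.helper19.EL

/-- the average with respect to the weight `ρ` -/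
noncomputable def avg (ρ f : ℝ → ℝ) : ℝ := ∫ u in (0 : ℝ)..1, f u * ρ u

theorem int_der {f f' : ℝ → ℝ} (hf : ∀ u, HasDerivAt f (f' u) u) (hc : Continuous f')
    (hp : Function.Periodic f 1) : ∫ u in (0 : ℝ)..1, f' u = 0 := by
  rw [intervalIntegral.integral_eq_sub_of_hasDerivAt (fun u _ => hf u)
    (hc.intervalIntegrable 0 1)]
  have := hp 0
  rw [zero_add] at this
  rw [this, sub_self]

theorem cs {f g ρ : ℝ → ℝ} (hf : Continuous f) (hg : Continuous g) (hρ : Continuous ρ)
    (h0 : ∀ u, 0 ≤ ρ u) :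
    avg ρ (fun u => f u * g u) ^ 2 ≤ avg ρ (fun u => f u ^ 2) * avg ρ (fun u => g u ^ 2) := by
  have hii : ∀ h : ℝ → ℝ, Continuous h → IntervalIntegrable h volume 0 1 :=
    fun h hh => hh.intervalIntegrable 0 1
  -- the quadratic polynomial `∫ (f x + g)² ρ`
  have key : ∀ x : ℝ, 0 ≤ avg ρ (fun u => f u ^ 2) * (x * x) +
      (2 * avg ρ (fun u => f u * g u)) * x + avg ρ (fun u => g u ^ 2) := by
    intro x
    have h1 : avg ρ (fun u => f u ^ 2) * (x * x) +
        (2 * avg ρ (fun u => f u * g u)) * x + avg ρ (fun u => g u ^ 2) =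
        ∫ u in (0 : ℝ)..1, (f u * x + g u) ^ 2 * ρ u := by
      unfold avg
      rw [← intervalIntegral.integral_mul_const, ← intervalIntegral.integral_const_mul,
        ← intervalIntegral.integral_mul_const, ← intervalIntegral.integral_add
        (hii _ (by fun_prop)) (hii _ (by fun_prop)), ← intervalIntegral.integral_add
        (hii _ (by fun_prop)) (hii _ (by fun_prop))]
      congr 1
      ext u
      ring
    rw [h1]
    apply intervalIntegral.integral_nonneg zero_le_one
    intro u _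
    exact mul_nonneg (sq_nonneg _) (h0 u)
  have := discrim_le_zero key
  unfold discrim at this
  nlinarith

/-- the case `u₀ = 0` of the next theorem -/
theorem sup_bound0 {f f₁ ρ : ℝ → ℝ} {l : ℝ} (hρc : Continuous ρ) (hρ0 : ∀ u, 0 < ρ u)
    (hρ1 : ∫ u in (0 : ℝ)..1, ρ u = 1)
    (hf : ∀ u, HasDerivAt f (l * ρ u * f₁ u) u) (hf1 : Continuous f₁)
    (hfp : Function.Periodic f 1)
    (hf0 : avg ρ f = 0) : f 0 ^ 2 ≤ l ^ 2 / 12 * avg ρ (fun u => f₁ u ^ 2) := by
  have hfc : Continuous f := continuous_iff_continuousAt.2 fun u => (hf u).continuousAt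
  set S : ℝ → ℝ := fun u => ∫ x in (0 : ℝ)..u, ρ x with hS
  have hSd : ∀ u, HasDerivAt S (ρ u) u := fun u => by
    exact intervalIntegral.integral_hasDerivAt_right (hρc.intervalIntegrable _ _)
      (hρc.stronglyMeasurableAtFilter _ _) hρc.continuousAt
  have hSc : Continuous S := continuous_iff_continuousAt.2 fun u => (hSd u).continuousAt
  have hS0 : S 0 = 0 := by simp [hS]
  have hS1 : S 1 = 1 := hρ1
  -- integration by parts
  have h1 : f 0 = avg ρ (fun u => (S u - 1 / 2) * (l * f₁ u)) := by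
    have h2 : ∀ u, HasDerivAt (fun u => (S u - 1 / 2) * f u)
        (ρ u * f u + (S u - 1 / 2) * (l * ρ u * f₁ u)) u := fun u => by
      exact ((hSd u).sub_const (1 / 2)).mul (hf u)
    have h3 := intervalIntegral.integral_eq_sub_of_hasDerivAt (fun u _ => h2 u)
      (a := 0) (b := 1) (Continuous.intervalIntegrable (by fun_prop) 0 1)
    rw [intervalIntegral.integral_add (Continuous.intervalIntegrable (by fun_prop) 0 1)
      (Continuous.intervalIntegrable (by fun_prop) 0 1)] at h3
    have h4 : ∫ u in (0 : ℝ)..1, ρ u * f u = 0 := by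
      rw [← hf0]
      unfold avg
      congr 1
      ext u
      ring
    have h5 : f 1 = f 0 := by
      have := hfp 0
      rwa [zero_add] at this
    rw [h4, hS0, hS1, h5, zero_add] at h3
    have h6 : avg ρ (fun u => (S u - 1 / 2) * (l * f₁ u)) =
        ∫ u in (0 : ℝ)..1, (S u - 1 / 2) * (l * ρ u * f₁ u) := by
      unfold avg
      congr 1
      ext u
      ring
    rw [h6, h3]
    ring
  have h7 : avg ρ (fun u => (S u - 1 / 2) ^ 2) = 1 / 12 := by
    have h2 : ∀ u, HasDerivAt (fun u => (S u - 1 / 2) ^ 3 / 3)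
        ((S u - 1 / 2) ^ 2 * ρ u) u := fun u => by
      refine ((((hSd u).sub_const (1 / 2)).pow 3).div_const 3).congr_deriv ?_
      norm_num
      field_simp
    have h3 := intervalIntegral.integral_eq_sub_of_hasDerivAt (fun u _ => h2 u)
      (a := 0) (b := 1) (Continuous.intervalIntegrable (by fun_prop) 0 1)
    unfold avg
    rw [h3, hS0, hS1]
    norm_num
  have h8 : avg ρ (fun u => (l * f₁ u) ^ 2) = l ^ 2 * avg ρ (fun u => f₁ u ^ 2) := by
    unfold avg
    rw [← intervalIntegral.integral_const_mul]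
    congr 1
    ext u
    ring
  have h9 := cs (f := fun u => S u - 1 / 2) (g := fun u => l * f₁ u) (ρ := ρ)
    (by fun_prop) (by fun_prop) hρc (fun u => (hρ0 u).le)
  rw [← h1, h7, h8] at h9
  linarith

/-- a periodic function with mean zero is bounded by its derivative -/
theorem sup_bound {f f₁ ρ : ℝ → ℝ} {l : ℝ} (hρc : Continuous ρ) (hρ0 : ∀ u, 0 < ρ u)
    (hρp : Function.Periodic ρ 1) (hρ1 : ∫ u in (0 : ℝ)..1, ρ u = 1)
    (hf : ∀ u, HasDerivAt f (l * ρ u * f₁ u) u) (hf1 : Continuous f₁)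
    (hfp : Function.Periodic f 1) (hf1p : Function.Periodic f₁ 1)
    (hf0 : avg ρ f = 0) (u₀ : ℝ) : f u₀ ^ 2 ≤ l ^ 2 / 12 * avg ρ (fun u => f₁ u ^ 2) := by
  have hsh : ∀ g : ℝ → ℝ, Function.Periodic g 1 →
      ∫ u in (0 : ℝ)..1, g (u + u₀) = ∫ u in (0 : ℝ)..1, g u := by
    intro g hg
    rw [intervalIntegral.integral_comp_add_right]
    have := hg.intervalIntegral_add_eq u₀ 0
    rw [zero_add] at this
    rw [zero_add, add_comm 1 u₀, this]
  have h := sup_bound0 (f := fun u => f (u + u₀)) (f₁ := fun u => f₁ (u + u₀))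
    (ρ := fun u => ρ (u + u₀)) (l := l) (by fun_prop) (fun u => hρ0 _)
    (by rw [hsh ρ hρp, hρ1])
    (fun u => (hf (u + u₀)).comp_add_const u u₀) (by fun_prop)
    (fun u => by
      have := hfp (u + u₀)
      show f (u + 1 + u₀) = f (u + u₀)
      rw [← this]; ring_nf)
    (by
      unfold avg
      rw [hsh (fun u => f u * ρ u) (fun u => by
        show f (u + 1) * ρ (u + 1) = f u * ρ u
        rw [hfp u, hρp u])]
      exact hf0)
  have h2 : avg (fun u => ρ (u + u₀)) (fun u => f₁ (u + u₀) ^ 2) =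
      avg ρ (fun u => f₁ u ^ 2) := by
    unfold avg
    exact hsh (fun u => f₁ u ^ 2 * ρ u) (fun u => by
      show f₁ (u + 1) ^ 2 * ρ (u + 1) = f₁ u ^ 2 * ρ u
      rw [hf1p u, hρp u])
  rw [h2] at h
  simpa using h

end Pool.Agent.helper19.EL
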