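import Pool.Agent.helper19.EL.Evo
import Pool.Agent.helper19.EL.Per

/-!
# EL: the evolution of the integrals

`L' = ∫ F k v`, `(∫ k v)' = 0`, `(∫ k² v)' = - 2 ∫ F² v`, `(∫ k v y)' = - 2 ∫ F k n v`.
-/

set_option autoImplicit false

open scoped Real ContDiff ComplexConjugate InnerProductSpace
open MeasureTheory intervalIntegral

namespace Pool.Agent.helper19.EL

/-- the component of the position in the direction `e` -/
noncomputable def fy (γ : ℝ → ℝ → ℂ) (e : ℂ) (u t : ℝ) : ℝ := (γ u t * conj e).re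
/-- the component of the tangent vector -/
noncomputable def fa (γ : ℝ → ℝ → ℂ) (e : ℂ) (u t : ℝ) : ℝ := (fT γ u t * conj e).re
/-- the component of the normal vector -/
noncomputable def fb (γ : ℝ → ℝ → ℂ) (e : ℂ) (u t : ℝ) : ℝ := (Complex.I * fT γ u t * conj e).re

noncomputable def iL (γ : ℝ → ℝ → ℂ) (t : ℝ) : ℝ := ∫ u in (0 : ℝ)..1, fv γ u t
noncomputable def iA (γ : ℝ → ℝ → ℂ) (t : ℝ) : ℝ := ∫ u in (0 : ℝ)..1, fk γ u t * fv γ u t
noncomputable def iW (γ : ℝ → ℝ → ℂ) (t : ℝ) : ℝ := ∫ u in (0 : ℝ)..1, fk γ u t ^ 2 * fv γ u t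
noncomputable def iY (γ : ℝ → ℝ → ℂ) (e : ℂ) (t : ℝ) : ℝ :=
  ∫ u in (0 : ℝ)..1, fk γ u t * fv γ u t * fy γ e u t

variable {γ : ℝ → ℝ → ℂ} {T : ℝ}

/-- the derivative of a component -/
theorem hasDerivAt_comp {f : ℝ → ℂ} {f' : ℂ} {x : ℝ} (hf : HasDerivAt f f' x) (e : ℂ) :
    HasDerivAt (fun y => (f y * conj e).re) (f' * conj e).re x := by
  have h1 : HasDerivAt (fun y => f y * conj e) (f' * conj e) x := hf.mul_const _
  exact Complex.reCLM.hasFDerivAt.comp_hasDerivAt x h1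

/-- periodicity of derivatives -/
theorem per_pu {E : Type} [NormedAddCommGroup E] [NormedSpace ℝ E] {f : ℝ → ℝ → E} {t : ℝ}
    (hf : ∀ u, f (u + 1) t = f u t) (u : ℝ) : pu f (u + 1) t = pu f u t := by
  unfold pu
  have h1 : (fun u' => f u' t) = fun u' => f (u' + 1) t := by
    ext u'
    exact (hf u').symm
  rw [show deriv (fun u' => f u' t) u = deriv (fun u' => f (u' + 1) t) u by rw [← h1]]
  exact (deriv_comp_add_const (fun u' => f u' t) 1 u).symm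

namespace IsFlow

variable (h : IsFlow γ T)
include h

/-! periodicity -/

theorem p_γ {t : ℝ} (ht : t ∈ Set.Ico 0 T) (u : ℝ) : γ (u + 1) t = γ u t := h.closed t ht u

theorem p_v {t : ℝ} (ht : t ∈ Set.Ico 0 T) (u : ℝ) : fv γ (u + 1) t = fv γ u t := by
  have h1 := per_pu (h.p_γ ht) u
  show ‖pu γ (u + 1) t‖ = ‖pu γ u t‖
  rw [h1]

theorem p_T {t : ℝ} (ht : t ∈ Set.Ico 0 T) (u : ℝ) : fT γ (u + 1) t = fT γ u t := by
  have h1 := per_pu (h.p_γ ht) u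
  show pu γ (u + 1) t / (fv γ (u + 1) t : ℂ) = pu γ u t / (fv γ u t : ℂ)
  rw [h1, h.p_v ht]

theorem p_k {t : ℝ} (ht : t ∈ Set.Ico 0 T) (u : ℝ) : fk γ (u + 1) t = fk γ u t := by
  have h1 := per_pu (h.p_T ht) u
  show ⟪pu (fT γ) (u + 1) t / (fv γ (u + 1) t : ℂ), Complex.I * fT γ (u + 1) t⟫_ℝ =
    ⟪pu (fT γ) u t / (fv γ u t : ℂ), Complex.I * fT γ u t⟫_ℝ
  rw [h1, h.p_v ht, h.p_T ht]

theorem p_k1 {t : ℝ} (ht : t ∈ Set.Ico 0 T) (u : ℝ) : fk1 γ (u + 1) t = fk1 γ u t := by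
  show pu (fk γ) (u + 1) t / fv γ (u + 1) t = pu (fk γ) u t / fv γ u t
  rw [per_pu (h.p_k ht), h.p_v ht]

theorem p_k2 {t : ℝ} (ht : t ∈ Set.Ico 0 T) (u : ℝ) : fk2 γ (u + 1) t = fk2 γ u t := by
  show pu (fk1 γ) (u + 1) t / fv γ (u + 1) t = pu (fk1 γ) u t / fv γ u t
  rw [per_pu (h.p_k1 ht), h.p_v ht]

theorem p_F {t : ℝ} (ht : t ∈ Set.Ico 0 T) (u : ℝ) : fF γ (u + 1) t = fF γ u t := by
  show fk2 γ (u + 1) t + fk γ (u + 1) t ^ 3 / 2 = fk2 γ u t + fk γ u t ^ 3 / 2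
  rw [h.p_k2 ht, h.p_k ht]

theorem p_F1 {t : ℝ} (ht : t ∈ Set.Ico 0 T) (u : ℝ) : fF1 γ (u + 1) t = fF1 γ u t := by
  show pu (fF γ) (u + 1) t / fv γ (u + 1) t = pu (fF γ) u t / fv γ u t
  rw [per_pu (h.p_F ht), h.p_v ht]

theorem p_y (e : ℂ) {t : ℝ} (ht : t ∈ Set.Ico 0 T) (u : ℝ) :
    fy γ e (u + 1) t = fy γ e u t := by
  unfold fy
  rw [h.p_γ ht]

theorem p_a (e : ℂ) {t : ℝ} (ht : t ∈ Set.Ico 0 T) (u : ℝ) :
    fa γ e (u + 1) t = fa γ e u t := by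
  unfold fa
  rw [h.p_T ht]

theorem p_b (e : ℂ) {t : ℝ} (ht : t ∈ Set.Ico 0 T) (u : ℝ) :
    fb γ e (u + 1) t = fb γ e u t := by
  unfold fb
  rw [h.p_T ht]

/-! smoothness and derivatives of the components -/

theorem sm_y (e : ℂ) : Sm T (fy γ e) := by
  have h1 : ContDiffOn ℝ ∞ (fun p : ℝ × ℝ => γ p.1 p.2 * conj e) (Set.univ ×ˢ Set.Ico 0 T) :=
    ContDiffOn.mul h.sm contDiffOn_const
  exact Complex.reCLM.contDiff.comp_contDiffOn h1

theorem d_y (e : ℂ) {t : ℝ} (ht : t ∈ Set.Ico 0 T) (u : ℝ) :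
    HasDerivAt (fun u => fy γ e u t) (fv γ u t * fa γ e u t) u := by
  have h1 := hasDerivAt_comp (h.sm.hasDerivAt_u ht u) e
  rw [h.pu_γ ht u, mul_assoc, Complex.re_ofReal_mul] at h1
  exact h1

theorem d_a (e : ℂ) {t : ℝ} (ht : t ∈ Set.Ico 0 T) (u : ℝ) :
    HasDerivAt (fun u => fa γ e u t) (fv γ u t * (fk γ u t * fb γ e u t)) u := by
  have h1 := hasDerivAt_comp (h.sm_T.hasDerivAt_u ht u) e
  rw [h.pu_T ht u, mul_assoc, Complex.re_ofReal_mul] at h1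
  refine h1.congr_deriv ?_
  unfold fb
  ring

theorem d_b (e : ℂ) {t : ℝ} (ht : t ∈ Set.Ico 0 T) (u : ℝ) :
    HasDerivAt (fun u => fb γ e u t) (fv γ u t * (-(fk γ u t * fa γ e u t))) u := by
  have h1 := hasDerivAt_comp ((h.sm_T.hasDerivAt_u ht u).const_mul Complex.I) e
  rw [h.pu_T ht u] at h1
  refine h1.congr_deriv ?_
  unfold fa
  have e1 : Complex.I * (((fk γ u t * fv γ u t : ℝ) : ℂ) * (Complex.I * fT γ u t)) * conj e =
      ((-(fk γ u t * fv γ u t) : ℝ) : ℂ) * (fT γ u t * conj e) := by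
    push_cast
    linear_combination ((fk γ u t * fv γ u t : ℂ) * fT γ u t * conj e) * Complex.I_mul_I
  rw [e1, Complex.re_ofReal_mul]
  ring

theorem d_k {t : ℝ} (ht : t ∈ Set.Ico 0 T) (u : ℝ) :
    HasDerivAt (fun u => fk γ u t) (fv γ u t * fk1 γ u t) u := by
  rw [← h.pu_k ht u]
  exact h.sm_k.hasDerivAt_u ht u

theorem d_k1 {t : ℝ} (ht : t ∈ Set.Ico 0 T) (u : ℝ) :
    HasDerivAt (fun u => fk1 γ u t) (fv γ u t * fk2 γ u t) u := by
  rw [← h.pu_k1 ht u]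
  exact h.sm_k1.hasDerivAt_u ht u

theorem d_F {t : ℝ} (ht : t ∈ Set.Ico 0 T) (u : ℝ) :
    HasDerivAt (fun u => fF γ u t) (fv γ u t * fF1 γ u t) u := by
  rw [← h.pu_F ht u]
  exact h.sm_F.hasDerivAt_u ht u

theorem pt_y (e : ℂ) {t : ℝ} (ht : t ∈ Set.Ioo 0 T) (u : ℝ) :
    pt (fy γ e) u t = -(fF γ u t * fb γ e u t) := by
  have h1 := hasDerivAt_comp (h.sm.hasDerivAt_t ht u) e
  rw [h.pt_γ ht u] at h1
  have h2 : pt (fy γ e) u t = _ := h1.deriv
  rw [h2]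
  unfold fb
  have e1 : -(fF γ u t : ℂ) * (Complex.I * fT γ u t) * conj e =
      ((-fF γ u t : ℝ) : ℂ) * (Complex.I * fT γ u t * conj e) := by
    push_cast
    ring
  rw [e1, Complex.re_ofReal_mul]
  ring

theorem pt_k2v {t : ℝ} (ht : t ∈ Set.Ioo 0 T) (u : ℝ) :
    pt (fun u t => fk γ u t ^ 2 * fv γ u t) u t =
      -(2 * (fk γ u t * pu (fF1 γ) u t)) - fk γ u t ^ 3 * fF γ u t * fv γ u t := by
  have hk := h.sm_k.hasDerivAt_t ht u
  have hv := h.sm_v.hasDerivAt_t ht u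
  have h1 : pt (fun u t => fk γ u t * fv γ u t) u t =
      pt (fk γ) u t * fv γ u t + fk γ u t * pt (fv γ) u t := (hk.mul hv).deriv
  rw [h.pt_kv ht u, h.pt_v ht u] at h1
  have h2 : pt (fun u t => fk γ u t ^ 2 * fv γ u t) u t = _ := ((hk.pow 2).mul hv).deriv
  rw [h2, h.pt_v ht u]
  norm_num
  linear_combination (-2 * fk γ u t) * h1

theorem pt_kvy (e : ℂ) {t : ℝ} (ht : t ∈ Set.Ioo 0 T) (u : ℝ) :
    pt (fun u t => fk γ u t * fv γ u t * fy γ e u t) u t =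
      -(pu (fF1 γ) u t * fy γ e u t) - fk γ u t * fv γ u t * (fF γ u t * fb γ e u t) := by
  have hm := (h.sm_k.mul h.sm_v).hasDerivAt_t ht u
  have hy := (h.sm_y e).hasDerivAt_t ht u
  have h2 : pt (fun u t => fk γ u t * fv γ u t * fy γ e u t) u t = _ := (hm.mul hy).deriv
  rw [h2, h.pt_kv ht u, h.pt_y e ht u]
  ring

/-! the integrals -/

theorem L' {t : ℝ} (ht : t ∈ Set.Ioo 0 T) :
    HasDerivAt (iL γ) (∫ u in (0 : ℝ)..1, fF γ u t * fk γ u t * fv γ u t) t := by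
  have h1 := h.sm_v.hasDerivAt_int ht
  have h2 : ∫ u in (0 : ℝ)..1, pt (fv γ) u t =
      ∫ u in (0 : ℝ)..1, fF γ u t * fk γ u t * fv γ u t := by
    congr 1; ext u; exact h.pt_v ht u
  rw [h2] at h1
  exact h1

theorem A' {t : ℝ} (ht : t ∈ Set.Ioo 0 T) : HasDerivAt (iA γ) 0 t := by
  have ht' : t ∈ Set.Ico 0 T := ⟨ht.1.le, ht.2⟩
  have h1 := (h.sm_k.mul h.sm_v).hasDerivAt_int ht
  have h2 : ∫ u in (0 : ℝ)..1, pt (fun u t => fk γ u t * fv γ u t) u t = 0 := by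
    have h3 : ∫ u in (0 : ℝ)..1, pt (fun u t => fk γ u t * fv γ u t) u t =
        ∫ u in (0 : ℝ)..1, -pu (fF1 γ) u t := by
      congr 1; ext u; exact h.pt_kv ht u
    rw [h3, intervalIntegral.integral_neg, int_der (fun u => h.sm_F1.hasDerivAt_u ht' u)
      (h.sm_F1.pu.cont_u ht') (h.p_F1 ht'), neg_zero]
  rw [h2] at h1
  exact h1

theorem W' {t : ℝ} (ht : t ∈ Set.Ioo 0 T) :
    HasDerivAt (iW γ) (-(2 * ∫ u in (0 : ℝ)..1, fF γ u t ^ 2 * fv γ u t)) t := by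
  have ht' : t ∈ Set.Ico 0 T := ⟨ht.1.le, ht.2⟩
  have cv := h.sm_v.cont_u ht'
  have ck := h.sm_k.cont_u ht'
  have ck1 := h.sm_k1.cont_u ht'
  have ck2 := h.sm_k2.cont_u ht'
  have cF := h.sm_F.cont_u ht'
  have cF1 := h.sm_F1.cont_u ht'
  have cF1' := h.sm_F1.pu.cont_u ht'
  have ii : ∀ f : ℝ → ℝ, Continuous f → IntervalIntegrable f volume 0 1 :=
    fun f hf => hf.intervalIntegrable 0 1
  have h1 := ((h.sm_k.pow 2).mul h.sm_v).hasDerivAt_int ht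
  -- two integrations by parts
  have e1 : ∫ u in (0 : ℝ)..1, (fv γ u t * fk1 γ u t * fF1 γ u t +
      fk γ u t * pu (fF1 γ) u t) = 0 :=
    int_der (f := fun u => fk γ u t * fF1 γ u t)
      (fun u => (h.d_k ht' u).mul (h.sm_F1.hasDerivAt_u ht' u)) (by fun_prop)
      (fun u => by
        show fk γ (u + 1) t * fF1 γ (u + 1) t = fk γ u t * fF1 γ u t
        rw [h.p_k ht', h.p_F1 ht'])
  have e2 : ∫ u in (0 : ℝ)..1, (fv γ u t * fk2 γ u t * fF γ u t +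
      fk1 γ u t * (fv γ u t * fF1 γ u t)) = 0 :=
    int_der (f := fun u => fk1 γ u t * fF γ u t)
      (fun u => (h.d_k1 ht' u).mul (h.d_F ht' u)) (by fun_prop)
      (fun u => by
        show fk1 γ (u + 1) t * fF γ (u + 1) t = fk1 γ u t * fF γ u t
        rw [h.p_k1 ht', h.p_F ht'])
  have h2 : ∫ u in (0 : ℝ)..1, pt (fun u t => fk γ u t ^ 2 * fv γ u t) u t =
      -(2 * ∫ u in (0 : ℝ)..1, fF γ u t ^ 2 * fv γ u t) := by
    have h3 : ∫ u in (0 : ℝ)..1, pt (fun u t => fk γ u t ^ 2 * fv γ u t) u t =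
        ∫ u in (0 : ℝ)..1, ((-2) * (fF γ u t ^ 2 * fv γ u t) -
          2 * (fv γ u t * fk1 γ u t * fF1 γ u t + fk γ u t * pu (fF1 γ) u t) +
          2 * (fv γ u t * fk2 γ u t * fF γ u t + fk1 γ u t * (fv γ u t * fF1 γ u t))) := by
      congr 1; ext u
      rw [h.pt_k2v ht u]
      have hF : fF γ u t = fk2 γ u t + fk γ u t ^ 3 / 2 := rfl
      rw [hF]
      ring
    rw [h3, intervalIntegral.integral_add (ii _ (by fun_prop)) (ii _ (by fun_prop)),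
      intervalIntegral.integral_sub (ii _ (by fun_prop)) (ii _ (by fun_prop)),
      intervalIntegral.integral_const_mul, intervalIntegral.integral_const_mul,
      intervalIntegral.integral_const_mul, e1, e2]
    ring
  rw [h2] at h1
  exact h1

theorem Y' (e : ℂ) {t : ℝ} (ht : t ∈ Set.Ioo 0 T) :
    HasDerivAt (iY γ e)
      (-(2 * ∫ u in (0 : ℝ)..1, fF γ u t * fk γ u t * fb γ e u t * fv γ u t)) t := by
  have ht' : t ∈ Set.Ico 0 T := ⟨ht.1.le, ht.2⟩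
  have cv := h.sm_v.cont_u ht'
  have ck := h.sm_k.cont_u ht'
  have cF := h.sm_F.cont_u ht'
  have cF1 := h.sm_F1.cont_u ht'
  have cF1' := h.sm_F1.pu.cont_u ht'
  have cy := (h.sm_y e).cont_u ht'
  have ca : Continuous fun u => fa γ e u t :=
    continuous_iff_continuousAt.2 fun u => (h.d_a e ht' u).continuousAt
  have cb : Continuous fun u => fb γ e u t :=
    continuous_iff_continuousAt.2 fun u => (h.d_b e ht' u).continuousAt
  have ii : ∀ f : ℝ → ℝ, Continuous f → IntervalIntegrable f volume 0 1 :=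
    fun f hf => hf.intervalIntegrable 0 1
  have h1 := ((h.sm_k.mul h.sm_v).mul (h.sm_y e)).hasDerivAt_int ht
  have e1 : ∫ u in (0 : ℝ)..1, (pu (fF1 γ) u t * fy γ e u t +
      fF1 γ u t * (fv γ u t * fa γ e u t)) = 0 :=
    int_der (f := fun u => fF1 γ u t * fy γ e u t)
      (fun u => (h.sm_F1.hasDerivAt_u ht' u).mul (h.d_y e ht' u)) (by fun_prop)
      (fun u => by
        show fF1 γ (u + 1) t * fy γ e (u + 1) t = fF1 γ u t * fy γ e u t
        rw [h.p_F1 ht', h.p_y e ht'])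
  have e2 : ∫ u in (0 : ℝ)..1, (fv γ u t * fF1 γ u t * fa γ e u t +
      fF γ u t * (fv γ u t * (fk γ u t * fb γ e u t))) = 0 :=
    int_der (f := fun u => fF γ u t * fa γ e u t)
      (fun u => (h.d_F ht' u).mul (h.d_a e ht' u)) (by fun_prop)
      (fun u => by
        show fF γ (u + 1) t * fa γ e (u + 1) t = fF γ u t * fa γ e u t
        rw [h.p_F ht', h.p_a e ht'])
  have h2 : ∫ u in (0 : ℝ)..1, pt (fun u t => fk γ u t * fv γ u t * fy γ e u t) u t =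
      -(2 * ∫ u in (0 : ℝ)..1, fF γ u t * fk γ u t * fb γ e u t * fv γ u t) := by
    have h3 : ∫ u in (0 : ℝ)..1, pt (fun u t => fk γ u t * fv γ u t * fy γ e u t) u t =
        ∫ u in (0 : ℝ)..1, ((-2) * (fF γ u t * fk γ u t * fb γ e u t * fv γ u t) -
          (pu (fF1 γ) u t * fy γ e u t + fF1 γ u t * (fv γ u t * fa γ e u t)) +
          (fv γ u t * fF1 γ u t * fa γ e u t +
            fF γ u t * (fv γ u t * (fk γ u t * fb γ e u t)))) := by
      congr 1; ext u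
      rw [h.pt_kvy e ht u]
      ring
    rw [h3, intervalIntegral.integral_add (ii _ (by fun_prop)) (ii _ (by fun_prop)),
      intervalIntegral.integral_sub (ii _ (by fun_prop)) (ii _ (by fun_prop)),
      intervalIntegral.integral_const_mul, e1, e2]
    ring
  rw [h2] at h1
  exact h1

/-! continuity -/

theorem cL : ContinuousOn (iL γ) (Set.Ico 0 T) := h.sm_v.cont_int
theorem cA : ContinuousOn (iA γ) (Set.Ico 0 T) := (h.sm_k.mul h.sm_v).cont_int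
theorem cW : ContinuousOn (iW γ) (Set.Ico 0 T) := ((h.sm_k.pow 2).mul h.sm_v).cont_int
theorem cY (e : ℂ) : ContinuousOn (iY γ e) (Set.Ico 0 T) :=
  ((h.sm_k.mul h.sm_v).mul (h.sm_y e)).cont_int

/-- the total curvature is constant -/
theorem A_const {t : ℝ} (ht : t ∈ Set.Ico 0 T) : iA γ t = iA γ 0 := by
  rcases eq_or_lt_of_le ht.1 with h0 | h0
  · rw [← h0]
  have h1 : ContinuousOn (iA γ) (Set.Icc 0 t) :=
    h.cA.mono fun x hx => ⟨hx.1, lt_of_le_of_lt hx.2 ht.2⟩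
  obtain ⟨c, _, hc⟩ := exists_hasDerivAt_eq_slope (iA γ) (fun _ => 0) h0 h1
    (fun x hx => h.A' ⟨hx.1, hx.2.trans ht.2⟩)
  have h2 : iA γ t - iA γ 0 = 0 := by
    have h3 : (t - 0 : ℝ) ≠ 0 := by rw [sub_zero]; exact h0.ne'
    rw [eq_div_iff h3, zero_mul] at hc
    exact hc.symm
  linarith

end IsFlow

end Pool.Agent.helper19.EL
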