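import Pool.Agent.helper19.EL.Defs

/-!
# EL: smooth functions of `(u, t)`, `u ∈ ℝ`, `0 ≤ t < T`

`pu f`, `pt f` are the partial derivatives.
-/

set_option autoImplicit false

open scoped Real ContDiff
open MeasureTheory intervalIntegral

namespace Pool.Agent.helper19.EL

variable {E : Type} [NormedAddCommGroup E] [NormedSpace ℝ E]

/-- smooth on `ℝ × [0, T)` -/
def Sm (T : ℝ) (f : ℝ → ℝ → E) : Prop :=
  ContDiffOn ℝ ∞ (fun p : ℝ × ℝ => f p.1 p.2) (Set.univ ×ˢ Set.Ico 0 T)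

/-- the derivative in the parameter -/
noncomputable def pu (f : ℝ → ℝ → E) (u t : ℝ) : E := deriv (fun u' => f u' t) u

/-- the derivative in time -/
noncomputable def pt (f : ℝ → ℝ → E) (u t : ℝ) : E := deriv (fun t' => f u t') t

variable {T : ℝ} {f : ℝ → ℝ → E}

theorem uniqueDiff : UniqueDiffOn ℝ ((Set.univ : Set ℝ) ×ˢ Set.Ico (0 : ℝ) T) :=
  uniqueDiffOn_univ.prod (uniqueDiffOn_Ico 0 T)

namespace Sm

theorem hasFDerivWithinAt (hf : Sm T f) {p : ℝ × ℝ} (hp : p.2 ∈ Set.Ico 0 T) :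
    HasFDerivWithinAt (fun p : ℝ × ℝ => f p.1 p.2)
      (fderivWithin ℝ (fun p : ℝ × ℝ => f p.1 p.2) (Set.univ ×ˢ Set.Ico 0 T) p)
      (Set.univ ×ˢ Set.Ico 0 T) p :=
  ((hf.differentiableOn (by simp)) p ⟨Set.mem_univ _, hp⟩).hasFDerivWithinAt

theorem hasDerivAt_u' (hf : Sm T f) {t : ℝ} (ht : t ∈ Set.Ico 0 T) (u : ℝ) :
    HasDerivAt (fun u' => f u' t)
      (fderivWithin ℝ (fun p : ℝ × ℝ => f p.1 p.2) (Set.univ ×ˢ Set.Ico 0 T) (u, t) (1, 0)) u := by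
  have h1 := hf.hasFDerivWithinAt (p := (u, t)) ht
  have h2 : HasDerivWithinAt (fun u' : ℝ => ((u', t) : ℝ × ℝ)) (1, 0) Set.univ u :=
    ((hasDerivAt_id u).prodMk (hasDerivAt_const u t)).hasDerivWithinAt
  have hm : Set.MapsTo (fun u' : ℝ => ((u', t) : ℝ × ℝ)) Set.univ
      ((Set.univ : Set ℝ) ×ˢ Set.Ico (0 : ℝ) T) := fun x _ => ⟨Set.mem_univ _, ht⟩
  have h3 := HasFDerivWithinAt.comp_hasDerivWithinAt u h1 h2 hm
  exact h3.hasDerivAt Filter.univ_mem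

theorem pu_eq (hf : Sm T f) {t : ℝ} (ht : t ∈ Set.Ico 0 T) (u : ℝ) : pu f u t =
    fderivWithin ℝ (fun p : ℝ × ℝ => f p.1 p.2) (Set.univ ×ˢ Set.Ico 0 T) (u, t) (1, 0) :=
  (hf.hasDerivAt_u' ht u).deriv

theorem hasDerivAt_u (hf : Sm T f) {t : ℝ} (ht : t ∈ Set.Ico 0 T) (u : ℝ) :
    HasDerivAt (fun u' => f u' t) (pu f u t) u := by
  rw [hf.pu_eq ht]
  exact hf.hasDerivAt_u' ht u

theorem pu (hf : Sm T f) : Sm T (pu f) := by
  have h1 : ContDiffOn ℝ ∞ (fderivWithin ℝ (fun p : ℝ × ℝ => f p.1 p.2)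
      (Set.univ ×ˢ Set.Ico 0 T)) (Set.univ ×ˢ Set.Ico 0 T) :=
    hf.fderivWithin uniqueDiff (by simp)
  have h2 : ContDiffOn ℝ ∞ (fun p => fderivWithin ℝ (fun p : ℝ × ℝ => f p.1 p.2)
      (Set.univ ×ˢ Set.Ico 0 T) p (1, 0)) (Set.univ ×ˢ Set.Ico 0 T) :=
    h1.clm_apply contDiffOn_const
  refine h2.congr ?_
  intro p hp
  exact hf.pu_eq hp.2 p.1

theorem contDiffAt (hf : Sm T f) {t : ℝ} (ht : t ∈ Set.Ioo 0 T) (u : ℝ) :
    ContDiffAt ℝ ∞ (fun p : ℝ × ℝ => f p.1 p.2) (u, t) := by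
  refine ContDiffOn.contDiffAt hf ?_
  exact prod_mem_nhds Filter.univ_mem (Ico_mem_nhds ht.1 ht.2)

theorem continuousOn (hf : Sm T f) :
    ContinuousOn (fun p : ℝ × ℝ => f p.1 p.2) (Set.univ ×ˢ Set.Ico 0 T) :=
  ContDiffOn.continuousOn hf

theorem cont_u (hf : Sm T f) {t : ℝ} (ht : t ∈ Set.Ico 0 T) : Continuous fun u => f u t :=
  continuous_iff_continuousAt.2 fun u => (hf.hasDerivAt_u ht u).continuousAt

theorem hasDerivAt_t' (hf : Sm T f) {t : ℝ} (ht : t ∈ Set.Ioo 0 T) (u : ℝ) :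
    HasDerivAt (fun t' => f u t') (fderiv ℝ (fun p : ℝ × ℝ => f p.1 p.2) (u, t) (0, 1)) t := by
  have h1 : HasFDerivAt (fun p : ℝ × ℝ => f p.1 p.2)
      (fderiv ℝ (fun p : ℝ × ℝ => f p.1 p.2) (u, t)) (u, t) :=
    ((hf.contDiffAt ht u).differentiableAt (by simp)).hasFDerivAt
  have h2 : HasDerivAt (fun t' : ℝ => ((u, t') : ℝ × ℝ)) (0, 1) t :=
    (hasDerivAt_const t u).prodMk (hasDerivAt_id t)
  exact HasFDerivAt.comp_hasDerivAt t h1 h2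

theorem pt_eq (hf : Sm T f) {t : ℝ} (ht : t ∈ Set.Ioo 0 T) (u : ℝ) : pt f u t =
    fderiv ℝ (fun p : ℝ × ℝ => f p.1 p.2) (u, t) (0, 1) :=
  (hf.hasDerivAt_t' ht u).deriv

theorem hasDerivAt_t (hf : Sm T f) {t : ℝ} (ht : t ∈ Set.Ioo 0 T) (u : ℝ) :
    HasDerivAt (fun t' => f u t') (pt f u t) t := by
  rw [hf.pt_eq ht]
  exact hf.hasDerivAt_t' ht u

theorem hasDerivAt_u'' (hf : Sm T f) {t : ℝ} (ht : t ∈ Set.Ioo 0 T) (u : ℝ) :
    HasDerivAt (fun u' => f u' t) (fderiv ℝ (fun p : ℝ × ℝ => f p.1 p.2) (u, t) (1, 0)) u := by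
  have h1 : HasFDerivAt (fun p : ℝ × ℝ => f p.1 p.2)
      (fderiv ℝ (fun p : ℝ × ℝ => f p.1 p.2) (u, t)) (u, t) :=
    ((hf.contDiffAt ht u).differentiableAt (by simp)).hasFDerivAt
  have h2 : HasDerivAt (fun u' : ℝ => ((u', t) : ℝ × ℝ)) (1, 0) u :=
    (hasDerivAt_id u).prodMk (hasDerivAt_const u t)
  exact HasFDerivAt.comp_hasDerivAt u h1 h2

theorem pu_eq' (hf : Sm T f) {t : ℝ} (ht : t ∈ Set.Ioo 0 T) (u : ℝ) : EL.pu f u t =
    fderiv ℝ (fun p : ℝ × ℝ => f p.1 p.2) (u, t) (1, 0) :=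
  (hf.hasDerivAt_u'' ht u).deriv

theorem isOpen_ioo : IsOpen ((Set.univ : Set ℝ) ×ˢ Set.Ioo (0 : ℝ) T) :=
  isOpen_univ.prod isOpen_Ioo

/-- the second derivative -/
theorem fderiv2 (hf : Sm T f) {t : ℝ} (ht : t ∈ Set.Ioo 0 T) (u : ℝ) :
    HasFDerivAt (fderiv ℝ (fun p : ℝ × ℝ => f p.1 p.2))
      (fderiv ℝ (fderiv ℝ (fun p : ℝ × ℝ => f p.1 p.2)) (u, t)) (u, t) := by
  have h1 : ContDiffAt ℝ 1 (fderiv ℝ (fun p : ℝ × ℝ => f p.1 p.2)) (u, t) :=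
    ((hf.contDiffAt ht u).of_le (m := 2) ENat.LEInfty.out).fderiv_right (by norm_num)
  exact (h1.differentiableAt (by simp)).hasFDerivAt

/-- the mixed derivatives agree -/
theorem comm (hf : Sm T f) {t : ℝ} (ht : t ∈ Set.Ioo 0 T) (u : ℝ) :
    HasDerivAt (fun u' => EL.pt f u' t) (EL.pt (EL.pu f) u t) u := by
  have h1 := hf.fderiv2 ht u
  have hs : IsSymmSndFDerivAt ℝ (fun p : ℝ × ℝ => f p.1 p.2) (u, t) :=
    (hf.contDiffAt ht u).isSymmSndFDerivAt (by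
      simp only [minSmoothness_of_isRCLikeNormedField]
      exact ENat.LEInfty.out)
  -- derivative of `pt f` in `u`
  have h2 : HasDerivAt (fun u' : ℝ => ((u', t) : ℝ × ℝ)) (1, 0) u :=
    (hasDerivAt_id u).prodMk (hasDerivAt_const u t)
  have h3 : HasDerivAt (fun u' => fderiv ℝ (fun p : ℝ × ℝ => f p.1 p.2) (u', t) (0, 1))
      (fderiv ℝ (fderiv ℝ (fun p : ℝ × ℝ => f p.1 p.2)) (u, t) (1, 0) (0, 1)) u := by
    have h4 := (HasFDerivAt.comp_hasDerivAt u h1 h2).clm_apply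
      (hasDerivAt_const u ((0, 1) : ℝ × ℝ))
    simpa using h4
  have h5 : HasDerivAt (fun u' => EL.pt f u' t)
      (fderiv ℝ (fderiv ℝ (fun p : ℝ × ℝ => f p.1 p.2)) (u, t) (1, 0) (0, 1)) u := by
    refine h3.congr_of_eventuallyEq (Filter.Eventually.of_forall fun u' => ?_)
    exact hf.pt_eq ht u'
  -- derivative of `pu f` in `t`
  have h6 : HasDerivAt (fun t' : ℝ => ((u, t') : ℝ × ℝ)) (0, 1) t :=
    (hasDerivAt_const t u).prodMk (hasDerivAt_id t)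
  have h7 : HasDerivAt (fun t' => fderiv ℝ (fun p : ℝ × ℝ => f p.1 p.2) (u, t') (1, 0))
      (fderiv ℝ (fderiv ℝ (fun p : ℝ × ℝ => f p.1 p.2)) (u, t) (0, 1) (1, 0)) t := by
    have h4 := (HasFDerivAt.comp_hasDerivAt t h1 h6).clm_apply
      (hasDerivAt_const t ((1, 0) : ℝ × ℝ))
    simpa using h4
  have h8 : HasDerivAt (fun t' => EL.pu f u t')
      (fderiv ℝ (fderiv ℝ (fun p : ℝ × ℝ => f p.1 p.2)) (u, t) (0, 1) (1, 0)) t := by
    refine h7.congr_of_eventuallyEq ?_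
    filter_upwards [Ioo_mem_nhds ht.1 ht.2] with t' ht'
    exact hf.pu_eq' ht' u
  have h9 : EL.pt (EL.pu f) u t =
      fderiv ℝ (fderiv ℝ (fun p : ℝ × ℝ => f p.1 p.2)) (u, t) (1, 0) (0, 1) := by
    rw [hs.eq (1, 0) (0, 1)]
    exact h8.deriv
  rw [h9]
  exact h5

theorem cont_pt (hf : Sm T f) :
    ContinuousOn (fun p : ℝ × ℝ => EL.pt f p.1 p.2) (Set.univ ×ˢ Set.Ioo 0 T) := by
  have h1 : ContDiffOn ℝ ∞ (fun p : ℝ × ℝ => f p.1 p.2) (Set.univ ×ˢ Set.Ioo 0 T) :=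
    ContDiffOn.mono hf (Set.prod_mono_right Set.Ioo_subset_Ico_self)
  have h2 : ContinuousOn (fderiv ℝ (fun p : ℝ × ℝ => f p.1 p.2)) (Set.univ ×ˢ Set.Ioo 0 T) :=
    h1.continuousOn_fderiv_of_isOpen isOpen_ioo (by simp)
  have h3 : ContinuousOn (fun p => fderiv ℝ (fun p : ℝ × ℝ => f p.1 p.2) p (0, 1))
      (Set.univ ×ˢ Set.Ioo 0 T) := h2.clm_apply continuousOn_const
  refine h3.congr ?_
  intro p hp
  exact hf.pt_eq hp.2 p.1

end Sm

/-! ## Integrals -/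

/-- `∫₀¹ f du` is continuous in time -/
theorem Sm.cont_int [CompleteSpace E] (hf : Sm T f) :
    ContinuousOn (fun t => ∫ u in (0 : ℝ)..1, f u t) (Set.Ico 0 T) := by
  intro t₀ ht₀
  -- extend from `[0, b]`
  obtain ⟨b, hb1, hb2⟩ := exists_between ht₀.2
  have hb0 : (0 : ℝ) ≤ b := ht₀.1.trans hb1.le
  set g : ℝ → ℝ → E := fun t u => f u (Set.projIcc 0 b hb0 t) with hg
  have hgc : Continuous (Function.uncurry g) := by
    have h1 : Continuous fun p : ℝ × ℝ => ((p.2, (Set.projIcc 0 b hb0 p.1 : ℝ)) : ℝ × ℝ) :=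
      continuous_snd.prodMk (continuous_subtype_val.comp
        (continuous_projIcc.comp continuous_fst))
    have h2 : ∀ p : ℝ × ℝ, ((p.2, (Set.projIcc 0 b hb0 p.1 : ℝ)) : ℝ × ℝ) ∈
        (Set.univ : Set ℝ) ×ˢ Set.Ico (0 : ℝ) T := fun p =>
      ⟨Set.mem_univ _, (Set.projIcc 0 b hb0 p.1).2.1,
        lt_of_le_of_lt (Set.projIcc 0 b hb0 p.1).2.2 hb2⟩
    have h3 := hf.continuousOn.comp_continuous h1 h2
    exact h3
  have h4 : Continuous fun t => ∫ u in (0 : ℝ)..1, g t u :=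
    intervalIntegral.continuous_parametric_intervalIntegral_of_continuous' hgc 0 1
  have h5 : ∀ t ∈ Set.Icc 0 b, ∫ u in (0 : ℝ)..1, g t u = ∫ u in (0 : ℝ)..1, f u t := by
    intro t ht
    simp only [hg, Set.projIcc_of_mem hb0 ht]
  refine ContinuousWithinAt.congr_of_eventuallyEq (h4.continuousAt.continuousWithinAt) ?_
    (h5 t₀ ⟨ht₀.1, hb1.le⟩).symm
  have h6 : Set.Ico 0 T ∩ Set.Iio b ∈ nhdsWithin t₀ (Set.Ico 0 T) :=
    Filter.inter_mem self_mem_nhdsWithin (mem_nhdsWithin_of_mem_nhds (Iio_mem_nhds hb1))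
  filter_upwards [h6] with t ht
  exact (h5 t ⟨ht.1.1, ht.2.le⟩).symm

/-- differentiation under the integral sign -/
theorem Sm.hasDerivAt_int [CompleteSpace E] (hf : Sm T f) {t : ℝ} (ht : t ∈ Set.Ioo 0 T) :
    HasDerivAt (fun t => ∫ u in (0 : ℝ)..1, f u t) (∫ u in (0 : ℝ)..1, pt f u t) t := by
  obtain ⟨a, ha1, ha2⟩ := exists_between ht.1
  obtain ⟨b, hb1, hb2⟩ := exists_between ht.2
  have hsub : (Set.Icc (0 : ℝ) 1) ×ˢ (Set.Icc a b) ⊆ (Set.univ : Set ℝ) ×ˢ Set.Ioo 0 T := by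
    intro p hp
    exact ⟨Set.mem_univ _, lt_of_lt_of_le ha1 hp.2.1, lt_of_le_of_lt hp.2.2 hb2⟩
  obtain ⟨C, hC⟩ := ((isCompact_Icc.prod isCompact_Icc).exists_bound_of_continuousOn
    (hf.cont_pt.mono hsub))
  have hts : ∀ t' ∈ Set.Icc a b, t' ∈ Set.Ioo 0 T := fun t' h =>
    ⟨lt_of_lt_of_le ha1 h.1, lt_of_le_of_lt h.2 hb2⟩
  have hcu : ∀ t' ∈ Set.Ioo 0 T, Continuous fun u => pt f u t' := by
    intro t' ht'
    have h1 : Continuous fun u : ℝ => ((u, t') : ℝ × ℝ) := by fun_prop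
    exact hf.cont_pt.comp_continuous h1 (fun u => ⟨Set.mem_univ _, ht'⟩)
  have h := intervalIntegral.hasDerivAt_integral_of_dominated_loc_of_deriv_le
    (μ := volume) (F := fun t u => f u t) (F' := fun t u => pt f u t) (x₀ := t)
    (s := Set.Icc a b) (bound := fun _ => C) (a := 0) (b := 1) (Icc_mem_nhds ha2 hb1) ?_ ?_ ?_ ?_ ?_ ?_
  · exact h.2
  · filter_upwards [Ioo_mem_nhds ht.1 ht.2] with t' ht'
    exact (hf.cont_u ⟨ht'.1.le, ht'.2⟩).aestronglyMeasurable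
  · exact (hf.cont_u ⟨ht.1.le, ht.2⟩).intervalIntegrable _ _
  · exact (hcu t ht).aestronglyMeasurable
  · refine Filter.Eventually.of_forall fun u hu t' ht' => ?_
    rw [Set.uIoc_of_le zero_le_one] at hu
    exact hC (u, t') ⟨⟨hu.1.le, hu.2⟩, ht'⟩
  · exact intervalIntegrable_const
  · refine Filter.Eventually.of_forall fun u _ t' ht' => ?_
    exact hf.hasDerivAt_t (hts t' ht') u

end Pool.Agent.helper19.EL
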