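import Pool.Agent.helper19.EL.Ineq

/-!
# EL: closed curves with total curvature zero have large energy

`64 ≤ L ∫ k² ds` if `∫ k ds = 0`: let `Θ` be the angle, with values in `[m, M]`, `mid = (M + m) / 2`.  Then
`∫ cos (Θ - mid) ds = 0`, so `M - m ≥ π`, and the total variation of
`2 √2 sin ((Θ - mid) / 2)` is at least `8` and at most
`(∫ 2 cos² ((Θ - mid) / 2) ds ∫ k² ds)^(1/2) = (L ∫ k² ds)^(1/2)`.
-/

set_option autoImplicit false

open scoped Real ContDiff ComplexConjugate InnerProductSpace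
open MeasureTheory intervalIntegral

namespace Pool.Agent.helper19.EL

/-- the total variation of a periodic function with two values at distance `a` -/
theorem var_ge {g g' : ℝ → ℝ} (hg : ∀ u, HasDerivAt g (g' u) u) (hc : Continuous g')
    (hp : g 1 = g 0) {u₁ u₂ : ℝ} (h1 : 0 ≤ u₁) (h12 : u₁ ≤ u₂) (h2 : u₂ ≤ 1) :
    2 * |g u₂ - g u₁| ≤ ∫ u in (0 : ℝ)..1, |g' u| := by
  have hii : ∀ a b : ℝ, IntervalIntegrable (fun u => |g' u|) volume a b :=
    fun a b => hc.abs.intervalIntegrable a b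
  have hle : ∀ a b : ℝ, a ≤ b → |g b - g a| ≤ ∫ u in a..b, |g' u| := by
    intro a b hab
    rw [← intervalIntegral.integral_eq_sub_of_hasDerivAt (fun u _ => hg u)
      (hc.intervalIntegrable a b)]
    exact intervalIntegral.abs_integral_le_integral_abs hab
  have e1 : ∫ u in (0 : ℝ)..1, |g' u| = (∫ u in (0 : ℝ)..u₁, |g' u|) +
      (∫ u in u₁..u₂, |g' u|) + ∫ u in u₂..1, |g' u| := by
    rw [intervalIntegral.integral_add_adjacent_intervals (hii _ _) (hii _ _),
      intervalIntegral.integral_add_adjacent_intervals (hii _ _) (hii _ _)]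
  have a1 := hle 0 u₁ h1
  have a2 := hle u₁ u₂ h12
  have a3 := hle u₂ 1 h2
  rw [e1]
  have b1 : |g u₂ - g u₁| ≤ |g u₁ - g 0| + |g 1 - g u₂| := by
    rw [hp]
    have := abs_sub_le (g u₂) (g 0) (g u₁)
    rw [abs_sub_comm (g u₂) (g 0), abs_sub_comm (g 0) (g u₁)] at this
    linarith
  linarith

variable {γ : ℝ → ℝ → ℂ} {T : ℝ}

theorem IsFlow.zero (h : IsFlow γ T) {t : ℝ} (ht : t ∈ Set.Ico 0 T) (hA : iA γ t = 0) :
    64 ≤ iL γ t * iW γ t := by
  have cv := h.sm_v.cont_u ht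
  have ck := h.sm_k.cont_u ht
  have cT := h.sm_T.cont_u ht
  have hg : Continuous fun x => fk γ x t * fv γ x t := by fun_prop
  set Θ : ℝ → ℝ := fun u => ∫ x in (0 : ℝ)..u, fk γ x t * fv γ x t with hΘ
  have hΘd : ∀ u, HasDerivAt Θ (fk γ u t * fv γ u t) u := fun u =>
    intervalIntegral.integral_hasDerivAt_right (hg.intervalIntegrable _ _)
      (hg.stronglyMeasurableAtFilter _ _) hg.continuousAt
  have hΘc : Continuous Θ := continuous_iff_continuousAt.2 fun u => (hΘd u).continuousAt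
  have hΘ0 : Θ 0 = 0 := by simp [hΘ]
  have hΘ1 : Θ 1 = 0 := hA
  -- `T exp (- i Θ)` is constant
  have hTd : ∀ u, HasDerivAt (fun u => fT γ u t * Complex.exp (-(Θ u : ℂ) * Complex.I)) 0 u := by
    intro u
    have h1 := h.sm_T.hasDerivAt_u ht u
    rw [h.pu_T ht u] at h1
    have h2 : HasDerivAt (fun u => Complex.exp (-(Θ u : ℂ) * Complex.I))
        (Complex.exp (-(Θ u : ℂ) * Complex.I) *
          (-((fk γ u t * fv γ u t : ℝ) : ℂ) * Complex.I)) u :=
      ((hΘd u).ofReal_comp.neg.mul_const Complex.I).cexp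
    refine (h1.mul h2).congr_deriv ?_
    ring
  have hT : ∀ u, fT γ u t = fT γ 0 t * Complex.exp ((Θ u : ℂ) * Complex.I) := by
    intro u
    have h1 := is_const_of_deriv_eq_zero (fun u => (hTd u).differentiableAt)
      (fun u => (hTd u).deriv) u 0
    simp only [hΘ0, Complex.ofReal_zero, neg_zero, zero_mul, Complex.exp_zero, mul_one] at h1
    rw [← h1, mul_assoc, ← Complex.exp_add]
    rw [show -(Θ u : ℂ) * Complex.I + (Θ u : ℂ) * Complex.I = 0 by ring, Complex.exp_zero, mul_one]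
  -- maximum and minimum
  obtain ⟨uM, huM, hM⟩ := isCompact_Icc.exists_isMaxOn (Set.nonempty_Icc.2 (zero_le_one' ℝ))
    hΘc.continuousOn
  obtain ⟨um, hum, hm⟩ := isCompact_Icc.exists_isMinOn (Set.nonempty_Icc.2 (zero_le_one' ℝ))
    hΘc.continuousOn
  set M := Θ uM with hMd
  set m := Θ um with hmd
  have hMle : ∀ u ∈ Set.Icc (0 : ℝ) 1, Θ u ≤ M := fun u hu => hM hu
  have hmle : ∀ u ∈ Set.Icc (0 : ℝ) 1, m ≤ Θ u := fun u hu => hm hu
  set mid := (M + m) / 2 with hmid
  -- the integral of the cosine vanishes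
  have hcos : ∫ u in (0 : ℝ)..1, Real.cos (Θ u - mid) * fv γ u t = 0 := by
    set e : ℂ := fT γ 0 t * Complex.exp ((mid : ℂ) * Complex.I) with he
    have h1 : ∀ u, fa γ e u t = Real.cos (Θ u - mid) := by
      intro u
      unfold fa
      rw [hT u, he, map_mul, ← Complex.exp_conj, map_mul, Complex.conj_ofReal, Complex.conj_I]
      rw [show fT γ 0 t * Complex.exp ((Θ u : ℂ) * Complex.I) *
        (conj (fT γ 0 t) * Complex.exp ((mid : ℂ) * -Complex.I)) =
        (fT γ 0 t * conj (fT γ 0 t)) *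
          (Complex.exp ((Θ u : ℂ) * Complex.I) * Complex.exp ((mid : ℂ) * -Complex.I)) by ring,
        h.TT ht, one_mul, ← Complex.exp_add,
        show (Θ u : ℂ) * Complex.I + (mid : ℂ) * -Complex.I =
          ((Θ u - mid : ℝ) : ℂ) * Complex.I by push_cast; ring, Complex.exp_ofReal_mul_I_re]
    have h2 : ∫ u in (0 : ℝ)..1, fv γ u t * fa γ e u t = 0 := by
      refine int_der (f := fun u => fy γ e u t) (fun u => h.d_y e ht u) ?_
        (fun u => h.p_y e ht u)
      have ca : Continuous fun u => fa γ e u t :=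
        continuous_iff_continuousAt.2 fun u => (h.d_a e ht u).continuousAt
      fun_prop
    rw [← h2]
    congr 1
    ext u
    rw [h1]
    ring
  -- the range is large
  have hrange : π ≤ M - m := by
    by_contra hlt
    push Not at hlt
    have h1 : 0 < ∫ u in (0 : ℝ)..1, Real.cos (Θ u - mid) * fv γ u t := by
      apply intervalIntegral.intervalIntegral_pos_of_pos_on
        (Continuous.intervalIntegrable (by fun_prop) 0 1) _ one_pos
      intro u hu
      have hu' : u ∈ Set.Icc (0 : ℝ) 1 := ⟨hu.1.le, hu.2.le⟩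
      have a1 := hMle u hu'
      have a2 := hmle u hu'
      apply mul_pos _ (h.v_pos ht u)
      apply Real.cos_pos_of_mem_Ioo
      constructor
      · rw [hmid]; linarith
      · rw [hmid]; linarith
    rw [hcos] at h1
    exact lt_irrefl _ h1
  -- two points
  have hπ := Real.pi_pos
  obtain ⟨u₁, hu₁, hΘ₁⟩ : ∃ u ∈ Set.Icc (0 : ℝ) 1, Θ u = mid - π / 2 := by
    have := isPreconnected_Icc.intermediate_value hum huM hΘc.continuousOn
    obtain ⟨u, hu, hu2⟩ := this (show mid - π / 2 ∈ Set.Icc (Θ um) (Θ uM) from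
      ⟨by rw [hmid]; linarith, by rw [hmid]; linarith⟩)
    exact ⟨u, hu, hu2⟩
  obtain ⟨u₂, hu₂, hΘ₂⟩ : ∃ u ∈ Set.Icc (0 : ℝ) 1, Θ u = mid + π / 2 := by
    have := isPreconnected_Icc.intermediate_value hum huM hΘc.continuousOn
    obtain ⟨u, hu, hu2⟩ := this (show mid + π / 2 ∈ Set.Icc (Θ um) (Θ uM) from
      ⟨by rw [hmid]; linarith, by rw [hmid]; linarith⟩)
    exact ⟨u, hu, hu2⟩
  -- the function
  have hgd : ∀ u, HasDerivAt (fun u => 2 * √2 * Real.sin ((Θ u - mid) / 2))
      (√2 * Real.cos ((Θ u - mid) / 2) * (fk γ u t * fv γ u t)) u := by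
    intro u
    have h1 := ((((hΘd u).sub_const mid).div_const 2).sin).const_mul (2 * √2)
    refine h1.congr_deriv ?_
    ring
  have hgp : 2 * √2 * Real.sin ((Θ 1 - mid) / 2) = 2 * √2 * Real.sin ((Θ 0 - mid) / 2) := by
    rw [hΘ0, hΘ1]
  have hdiff : |2 * √2 * Real.sin ((Θ u₂ - mid) / 2) - 2 * √2 * Real.sin ((Θ u₁ - mid) / 2)| =
      4 := by
    rw [hΘ₁, hΘ₂, show (mid + π / 2 - mid) / 2 = π / 4 by ring,
      show (mid - π / 2 - mid) / 2 = -(π / 4) by ring, Real.sin_neg, Real.sin_pi_div_four]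
    have h2 : √2 * √2 = 2 := Real.mul_self_sqrt (by norm_num)
    rw [show 2 * √2 * (√2 / 2) - 2 * √2 * -(√2 / 2) = 2 * (√2 * √2) by ring, h2]
    norm_num
  have hcg : Continuous fun u => √2 * Real.cos ((Θ u - mid) / 2) * (fk γ u t * fv γ u t) := by
    fun_prop
  have hvar : 8 ≤ ∫ u in (0 : ℝ)..1,
      |√2 * Real.cos ((Θ u - mid) / 2) * (fk γ u t * fv γ u t)| := by
    rcases le_total u₁ u₂ with h12 | h12
    · have := var_ge hgd hcg hgp hu₁.1 h12 hu₂.2
      rw [hdiff] at this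
      linarith
    · have := var_ge hgd hcg hgp hu₂.1 h12 hu₁.2
      rw [abs_sub_comm, hdiff] at this
      linarith
  -- Cauchy-Schwarz
  have hcs := cs (f := fun u => |√2 * Real.cos ((Θ u - mid) / 2)|) (g := fun u => |fk γ u t|)
    (ρ := fun u => fv γ u t) (by fun_prop) (by fun_prop) cv (fun u => (h.v_pos ht u).le)
  have e1 : avg (fun u => fv γ u t) (fun u => |√2 * Real.cos ((Θ u - mid) / 2)| * |fk γ u t|) =
      ∫ u in (0 : ℝ)..1, |√2 * Real.cos ((Θ u - mid) / 2) * (fk γ u t * fv γ u t)| := by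
    unfold avg
    congr 1
    ext u
    rw [abs_mul _ (fk γ u t * fv γ u t), abs_mul (fk γ u t), abs_of_pos (h.v_pos ht u)]
    ring
  have e2 : avg (fun u => fv γ u t) (fun u => |√2 * Real.cos ((Θ u - mid) / 2)| ^ 2) =
      iL γ t := by
    unfold avg
    have h2 : √2 ^ 2 = 2 := Real.sq_sqrt (by norm_num)
    have h3 : ∀ u, |√2 * Real.cos ((Θ u - mid) / 2)| ^ 2 * fv γ u t =
        fv γ u t + Real.cos (Θ u - mid) * fv γ u t := by
      intro u
      rw [sq_abs, mul_pow, h2]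
      have h4 := Real.cos_sq ((Θ u - mid) / 2)
      rw [show 2 * ((Θ u - mid) / 2) = Θ u - mid by ring] at h4
      rw [h4]
      ring
    simp only [h3]
    rw [intervalIntegral.integral_add (cv.intervalIntegrable 0 1)
      (Continuous.intervalIntegrable (by fun_prop) 0 1), hcos, add_zero]
    rfl
  have e3 : avg (fun u => fv γ u t) (fun u => |fk γ u t| ^ 2) = iW γ t := by
    unfold avg iW
    congr 1
    ext u
    show |fk γ u t| ^ 2 * fv γ u t = _
    rw [sq_abs]
  rw [e1, e2, e3] at hcs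
  nlinarith

/-- the total curvature is at least `2π` in absolute value if it is not zero -/
theorem IsFlow.A_ge (h : IsFlow γ T) {t : ℝ} (ht : t ∈ Set.Ico 0 T) (hA : iA γ t ≠ 0) :
    4 * π ^ 2 ≤ iA γ t ^ 2 := by
  have h1 := (h.sd ht hA (e := 1) (by simp)).two_pi_le
  have hπ := Real.pi_pos
  rw [← sq_abs (iA γ t)]
  nlinarith

end Pool.Agent.helper19.EL
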