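import Pool.Agent.helper19.EL.Slice

/-!
# EL: one curve: the Frenet equations

`c' = v T`, `T' = k v N`, `|T| = 1`, `N = i T`.
-/

set_option autoImplicit false

open scoped Real ContDiff ComplexConjugate InnerProductSpace

namespace Pool.Agent.helper19.EL

variable {c : ℝ → ℂ} {u : ℝ}

theorem speed_pos (h : deriv c u ≠ 0) : 0 < speed c u := norm_pos_iff.2 h

theorem deriv_c (h : deriv c u ≠ 0) : deriv c u = (speed c u : ℂ) * tang c u := by
  have h1 : (speed c u : ℂ) ≠ 0 := by exact_mod_cast (speed_pos h).ne'
  unfold tang dsC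
  field_simp

theorem norm_tang (h : deriv c u ≠ 0) : ‖tang c u‖ = 1 := by
  unfold tang dsC
  rw [norm_div, Complex.norm_real, Real.norm_of_nonneg (speed_pos h).le]
  exact div_self (speed_pos h).ne'

theorem tang_mul_conj (h : deriv c u ≠ 0) : tang c u * conj (tang c u) = 1 := by
  rw [Complex.mul_conj, Complex.normSq_eq_norm_sq, norm_tang h]
  simp

/-- the derivative of a function with values in the unit circle -/
theorem re_deriv_unit {f : ℝ → ℂ} {f' : ℂ} {x : ℝ} (hf : HasDerivAt f f' x)
    (h1 : ∀ᶠ y in nhds x, f y * conj (f y) = 1) : (f' * conj (f x)).re = 0 := by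
  have h2 : HasDerivAt (fun y => f y * conj (f y)) (f' * conj (f x) + f x * conj f') x :=
    hf.mul hf.star
  have h3 : HasDerivAt (fun y => f y * conj (f y)) 0 x :=
    (hasDerivAt_const x (1 : ℂ)).congr_of_eventuallyEq h1
  have h4 := h2.unique h3
  have h5 := congrArg Complex.re h4
  simp only [Complex.add_re, Complex.mul_re, Complex.conj_re, Complex.conj_im,
    Complex.zero_re] at h5 ⊢
  linarith

/-- the formula for the curvature -/
theorem curv_eq : curv c u = (deriv (tang c) u * conj (tang c u)).im / speed c u := by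
  unfold curv nor dsC
  rw [Complex.inner, map_div₀, Complex.conj_ofReal]
  rw [show (Complex.I * tang c u) * (conj (deriv (tang c) u) / (speed c u : ℂ)) =
    (conj (deriv (tang c) u) * (Complex.I * tang c u)) / (speed c u : ℂ) by ring]
  rw [Complex.div_ofReal_re]
  congr 1
  simp only [Complex.mul_re, Complex.mul_im, Complex.conj_re, Complex.conj_im, Complex.I_re,
    Complex.I_im]
  ring

theorem deriv_tang (h : ∀ᶠ y in nhds u, deriv c y ≠ 0) (hd : DifferentiableAt ℝ (tang c) u) :
    deriv (tang c) u = ((curv c u * speed c u : ℝ) : ℂ) * nor c u := by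
  have hu := h.self_of_nhds
  have h1 := re_deriv_unit hd.hasDerivAt (h.mono fun y hy => tang_mul_conj hy)
  have h2 : curv c u * speed c u = (deriv (tang c) u * conj (tang c u)).im := by
    rw [curv_eq, div_mul_cancel₀ _ (speed_pos hu).ne']
  have h3 : deriv (tang c) u * conj (tang c u) =
      ((curv c u * speed c u : ℝ) : ℂ) * Complex.I := by
    apply Complex.ext
    · rw [h1]
      simp
    · rw [← h2]
      simp
  have h4 : deriv (tang c) u = (deriv (tang c) u * conj (tang c u)) * tang c u := by
    rw [mul_assoc, mul_comm (conj _), tang_mul_conj hu, mul_one]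
  rw [h4, h3]
  unfold nor
  ring

end Pool.Agent.helper19.EL
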