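import Mathlib

/-!
# EL: the free elastic flow of closed planar curves (MP_278900_an), definitions

The plane is `ℂ`.  A closed curve is a 1-periodic map `c : ℝ → ℂ` with nonvanishing derivative.
-/

set_option autoImplicit false

open scoped Real ContDiff InnerProductSpace

namespace Pool.Agent.helper19.EL

/-! ## One curve -/

section
variable (c : ℝ → ℂ)

/-- the speed `|c'|`; the arc length element is `ds = speed c u * du` -/
noncomputable def speed (u : ℝ) : ℝ := ‖deriv c u‖

/-- the derivative with respect to arc length of a real function along the curve -/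
noncomputable def dsR (f : ℝ → ℝ) (u : ℝ) : ℝ := deriv f u / speed c u

/-- the derivative with respect to arc length of a plane-valued function along the curve -/
noncomputable def dsC (f : ℝ → ℂ) (u : ℝ) : ℂ := deriv f u / (speed c u : ℂ)

/-- the unit tangent vector `∂_s c` -/
noncomputable def tang (u : ℝ) : ℂ := dsC c c u

/-- the unit normal vector `N`: the tangent vector turned by a quarter of a turn -/
noncomputable def nor (u : ℝ) : ℂ := Complex.I * tang c u

/-- the signed curvature `k = ⟨∂_s² c, N⟩` -/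
noncomputable def curv (u : ℝ) : ℝ := ⟪dsC c (tang c) u, nor c u⟫_ℝ

/-- `F = ∂_s² k + k³ / 2` -/
noncomputable def elF (u : ℝ) : ℝ := dsR c (dsR c (curv c)) u + curv c u ^ 3 / 2

/-- the length -/
noncomputable def len : ℝ := ∫ u in (0 : ℝ)..1, speed c u

/-- the elastic energy `(1 / 2) ∫ k² ds` -/
noncomputable def energy : ℝ := 1 / 2 * ∫ u in (0 : ℝ)..1, curv c u ^ 2 * speed c u

/-- the turning number `(1 / 2π) ∫ k ds` -/
noncomputable def turning : ℝ := 1 / (2 * π) * ∫ u in (0 : ℝ)..1, curv c u * speed c u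

/-- the centre `(∫ k c ds) / (∫ k ds)` (curvature centroid) -/
noncomputable def centre : ℂ :=
  (∫ u in (0 : ℝ)..1, ((curv c u * speed c u : ℝ) : ℂ) * c u) / ((2 * π * turning c : ℝ) : ℂ)

end

/-! ## The flow -/

/-- `γ u t`, `u ∈ ℝ` (period 1), `0 ≤ t < T`, is a smooth solution of the free elastic flow
`∂_t γ = - (∂_s² k + k³ / 2) N` of closed immersed planar curves. -/
structure IsFlow (γ : ℝ → ℝ → ℂ) (T : ℝ) : Prop where
  smooth : ContDiffOn ℝ ∞ (fun p : ℝ × ℝ => γ p.1 p.2) (Set.univ ×ˢ Set.Ico 0 T)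
  closed : ∀ t ∈ Set.Ico 0 T, ∀ u, γ (u + 1) t = γ u t
  immersed : ∀ t ∈ Set.Ico 0 T, ∀ u, deriv (fun u' => γ u' t) u ≠ 0
  flow : ∀ t ∈ Set.Ioo 0 T, ∀ u, deriv (fun t' => γ u t') t =
    -(elF (fun u' => γ u' t) u : ℂ) * nor (fun u' => γ u' t) u

/-- the flow starts in the open upper half-plane and is in the open lower half-plane at a later time -/
def Migrating (γ : ℝ → ℝ → ℂ) (T : ℝ) : Prop :=
  (∀ u, 0 < (γ u 0).im) ∧ ∃ t ∈ Set.Ioo 0 T, ∀ u, (γ u t).im < 0

end Pool.Agent.helper19.EL
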