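import Pool.Agent.helper19.EL.Norm

/-!
# EL: the inequalities at a fixed time, in terms of the integrals
-/

set_option autoImplicit false

open scoped Real ContDiff ComplexConjugate InnerProductSpace
open MeasureTheory intervalIntegral

namespace Pool.Agent.helper19.EL

/-- `∫ F k ds` -/
noncomputable def iFk (γ : ℝ → ℝ → ℂ) (t : ℝ) : ℝ :=
  ∫ u in (0 : ℝ)..1, fF γ u t * fk γ u t * fv γ u t

/-- `∫ F² ds` -/
noncomputable def iFF (γ : ℝ → ℝ → ℂ) (t : ℝ) : ℝ := ∫ u in (0 : ℝ)..1, fF γ u t ^ 2 * fv γ u t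

/-- `∫ F k n ds` -/
noncomputable def iFn (γ : ℝ → ℝ → ℂ) (e : ℂ) (t : ℝ) : ℝ :=
  ∫ u in (0 : ℝ)..1, fF γ u t * fk γ u t * fb γ e u t * fv γ u t

/-- the derivative of the energy excess -/
noncomputable def dV (γ : ℝ → ℝ → ℂ) (t : ℝ) : ℝ :=
  (iFk γ t * iW γ t + iL γ t * (-(2 * iFF γ t))) / (4 * π ^ 2)

variable {γ : ℝ → ℝ → ℂ} {T : ℝ}

/-- the lower bound for the extent -/
theorem ext_alg {V : ℝ} (h0 : 0 ≤ V) (h1 : V ≤ 1 / 10) :
    7 / 8 - 35 / 4 * V < 1 - √(π ^ 2 * V / 3) - √(π ^ 2 * V / 3) * √V ∧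
      0 < 1 - √(π ^ 2 * V / 3) - √(π ^ 2 * V / 3) * √V := by
  have hπ := pi_sq_lt
  have hx0 : 0 ≤ √V := Real.sqrt_nonneg _
  have hxs : √V ^ 2 = V := Real.sq_sqrt h0
  have hX : √(π ^ 2 * V / 3) ≤ 1.8139 * √V := by
    apply Real.sqrt_le_iff.2
    constructor
    · positivity
    · rw [mul_pow, hxs]
      nlinarith
  set x := √V with hx
  have hx1 : x ≤ 0.3163 := by nlinarith
  have hXx : √(π ^ 2 * V / 3) * x ≤ 1.8139 * x * x := mul_le_mul_of_nonneg_right hX hx0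
  constructor
  · nlinarith [sq_nonneg (x - 0.1308)]
  · nlinarith

namespace IsFlow

variable (h : IsFlow γ T)
include h

theorem mv_eq {t : ℝ} (ht : t ∈ Set.Ico 0 T) (hA : iA γ t ≠ 0) {e : ℂ} (he : ‖e‖ = 1) :
    mv (fun u => fv γ u t / iL γ t) (fun u => iL γ t / iA γ t * fk γ u t) =
      iL γ t * iW γ t / iA γ t ^ 2 - 1 := by
  have hs := h.sd ht hA he
  have h1 := hs.k2
  have hL := (h.L_pos ht).ne'
  rw [avg_scale (v := fun u => fv γ u t) (g := fun u => fk γ u t ^ 2) (fun u => rfl)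
    (fun u => mul_pow _ _ 2)] at h1
  have h2 : ∫ u in (0 : ℝ)..1, fk γ u t ^ 2 * fv γ u t = iW γ t := rfl
  rw [h2] at h1
  have h3 : (iL γ t / iA γ t) ^ 2 / iL γ t * iW γ t = iL γ t * iW γ t / iA γ t ^ 2 := by
    field_simp
  rw [h3] at h1
  linarith

theorem V_eq {t : ℝ} (ht : t ∈ Set.Ico 0 T) (hA : iA γ t ≠ 0) {e : ℂ} (he : ‖e‖ = 1) :
    |iA γ t| ^ 2 / (4 * π ^ 2) *
      mv (fun u => fv γ u t / iL γ t) (fun u => iL γ t / iA γ t * fk γ u t) = eV γ t := by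
  rw [h.mv_eq ht hA he, sq_abs]
  unfold eV
  have hπ := Real.pi_pos.ne'
  field_simp

theorem V_nonneg {t : ℝ} (ht : t ∈ Set.Ico 0 T) (hA : iA γ t ≠ 0) : 0 ≤ eV γ t := by
  have hs := h.sd ht hA (e := 1) (by simp)
  rw [← h.V_eq ht hA (e := 1) (by simp)]
  have := hs.v0
  positivity

omit h in
theorem F_eq {t : ℝ} (u : ℝ) :
    Ff (fun u => iL γ t / iA γ t * fk γ u t) (fun u => iL γ t ^ 3 / iA γ t ^ 3 * fk2 γ u t) u =
      iL γ t ^ 3 / iA γ t ^ 3 * fF γ u t := by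
  have hF : fF γ u t = fk2 γ u t + fk γ u t ^ 3 / 2 := rfl
  unfold Ff
  rw [hF]
  ring

theorem gr_eq {t : ℝ} (ht : t ∈ Set.Ico 0 T) (hA : iA γ t ≠ 0) :
    gr (fun u => fv γ u t / iL γ t) (fun u => iL γ t / iA γ t * fk γ u t)
      (fun u => iL γ t ^ 3 / iA γ t ^ 3 * fk2 γ u t) =
      iL γ t ^ 4 / iA γ t ^ 6 * (2 * iL γ t * iFF γ t - iW γ t * iFk γ t) := by
  have hL := (h.L_pos ht).ne'
  unfold gr
  rw [avg_scale (v := fun u => fv γ u t) (g := fun u => fF γ u t ^ 2)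
      (a := (iL γ t ^ 3 / iA γ t ^ 3) ^ 2) (fun u => rfl)
      (fun u => by rw [F_eq, mul_pow]),
    avg_scale (v := fun u => fv γ u t) (g := fun u => fk γ u t ^ 2) (fun u => rfl)
      (fun u => mul_pow _ _ 2),
    avg_scale (v := fun u => fv γ u t) (g := fun u => fF γ u t * fk γ u t)
      (a := iL γ t ^ 3 / iA γ t ^ 3 * (iL γ t / iA γ t)) (fun u => rfl)
      (fun u => by rw [F_eq]; ring)]
  have h1 : ∫ u in (0 : ℝ)..1, fF γ u t ^ 2 * fv γ u t = iFF γ t := rfl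
  have h2 : ∫ u in (0 : ℝ)..1, fk γ u t ^ 2 * fv γ u t = iW γ t := rfl
  have h3 : ∫ u in (0 : ℝ)..1, fF γ u t * fk γ u t * fv γ u t = iFk γ t := rfl
  rw [h1, h2, h3]
  field_simp

/-- the energy excess does not increase -/
theorem dV_nonpos {t : ℝ} (ht : t ∈ Set.Ico 0 T) (hA : iA γ t ≠ 0) (hV : eV γ t ≤ 1 / 2) :
    dV γ t ≤ 0 := by
  have hs := h.sd ht hA (e := 1) (by simp)
  have hL := h.L_pos ht
  have h1 := hs.g_nonneg hs.two_pi_le (by rw [h.V_eq ht hA (e := 1) (by simp)]; exact hV)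
  rw [h.gr_eq ht hA] at h1
  have h2 : 0 < iL γ t ^ 4 / iA γ t ^ 6 := by positivity
  have h3 : 0 ≤ 2 * iL γ t * iFF γ t - iW γ t * iFk γ t := by
    by_contra hneg
    push Not at hneg
    nlinarith
  unfold dV
  apply div_nonpos_of_nonpos_of_nonneg _ (by positivity)
  linarith

/-- the speed of the centre -/
theorem speed_ineq {t : ℝ} (ht : t ∈ Set.Ico 0 T) (hA : iA γ t ≠ 0) {e : ℂ} (he : ‖e‖ = 1)
    (hV : eV γ t ≤ 1 / 10) :
    2 * |iFn γ e t| / |iA γ t| ≤ iFk γ t / |iA γ t| * (7 / 8 - 35 / 4 * eV γ t) -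
      35 / 4 * (eR γ t * dV γ t) := by
  have hs := h.sd ht hA he
  have hL := h.L_pos ht
  have hA' : 0 < |iA γ t| := abs_pos.2 hA
  have h1 := hs.speed hs.two_pi_le (by rw [h.V_eq ht hA he]; exact hV)
  rw [h.V_eq ht hA he, h.gr_eq ht hA, avg_scale (v := fun u => fv γ u t)
      (g := fun u => fF γ u t * fk γ u t * fb γ e u t)
      (a := iL γ t ^ 3 / iA γ t ^ 3 * (iL γ t / iA γ t) * (iA γ t / |iA γ t|)) (fun u => rfl)
      (fun u => by rw [F_eq]; ring),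
    avg_scale (v := fun u => fv γ u t) (g := fun u => fF γ u t * fk γ u t)
      (a := iL γ t ^ 3 / iA γ t ^ 3 * (iL γ t / iA γ t)) (fun u => rfl)
      (fun u => by rw [F_eq]; ring)] at h1
  have e1 : ∫ u in (0 : ℝ)..1, fF γ u t * fk γ u t * fb γ e u t * fv γ u t = iFn γ e t := rfl
  have e2 : ∫ u in (0 : ℝ)..1, fF γ u t * fk γ u t * fv γ u t = iFk γ t := rfl
  rw [e1, e2] at h1
  have e3 : |iL γ t ^ 3 / iA γ t ^ 3 * (iL γ t / iA γ t) * (iA γ t / |iA γ t|) / iL γ t *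
      iFn γ e t| = iL γ t ^ 3 / |iA γ t| ^ 4 * |iFn γ e t| := by
    rw [abs_mul]
    congr 1
    rw [abs_div, abs_mul, abs_mul, abs_div, abs_div, abs_div, abs_pow, abs_pow, abs_abs,
      abs_of_pos hL]
    field_simp
  have e4 : |iA γ t| ^ 2 = iA γ t ^ 2 := sq_abs _
  have e6 : iA γ t ^ 6 = |iA γ t| ^ 6 := by
    rw [show |iA γ t| ^ 6 = (|iA γ t| ^ 2) ^ 3 by ring, e4]; ring
  have e7 : iL γ t ^ 3 / iA γ t ^ 3 * (iL γ t / iA γ t) / iL γ t * iFk γ t =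
      iL γ t ^ 3 / |iA γ t| ^ 4 * iFk γ t := by
    have : |iA γ t| ^ 4 = iA γ t ^ 4 := by
      rw [show |iA γ t| ^ 4 = (|iA γ t| ^ 2) ^ 2 by ring, e4]; ring
    rw [this]
    field_simp
  rw [e3, e7, e6] at h1
  unfold eR dV
  generalize |iA γ t| = B at *
  have hL3 : 0 < iL γ t ^ 3 / B ^ 3 := by positivity
  have h2 : (iL γ t ^ 3 / B ^ 3) * (2 * |iFn γ e t| / B) ≤ (iL γ t ^ 3 / B ^ 3) *
      (iFk γ t / B * (7 / 8 - 35 / 4 * eV γ t) - 35 / 4 * (iL γ t / B *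
        ((iFk γ t * iW γ t + iL γ t * (-(2 * iFF γ t))) / (4 * π ^ 2)))) := by
    have hπ := Real.pi_pos.ne'
    have hB := hA'.ne'
    have hLn := hL.ne'
    have a1 : (iL γ t ^ 3 / B ^ 3) * (2 * |iFn γ e t| / B) =
        2 * (iL γ t ^ 3 / B ^ 4 * |iFn γ e t|) := by
      field_simp
    have a2 : (iL γ t ^ 3 / B ^ 3) *
      (iFk γ t / B * (7 / 8 - 35 / 4 * eV γ t) - 35 / 4 * (iL γ t / B *
        ((iFk γ t * iW γ t + iL γ t * (-(2 * iFF γ t))) / (4 * π ^ 2)))) =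
        iL γ t ^ 3 / B ^ 4 * iFk γ t * (7 / 8 - 35 / 4 * eV γ t) +
          35 / 4 * (B ^ 2 / (4 * π ^ 2)) *
            (iL γ t ^ 4 / B ^ 6 * (2 * iL γ t * iFF γ t - iW γ t * iFk γ t)) := by
      field_simp
      ring
    rw [a1, a2]
    exact h1
  exact le_of_mul_le_mul_left h2 hL3

/-- the extent in the direction `e` -/
theorem extent_ineq {t : ℝ} (ht : t ∈ Set.Ico 0 T) (hA : iA γ t ≠ 0) {e : ℂ} (he : ‖e‖ = 1) :
    ∃ u, eP γ e t + eR γ t * (1 - √(π ^ 2 * eV γ t / 3) - √(π ^ 2 * eV γ t / 3) * √(eV γ t)) ≤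
      fy γ e u t := by
  have hs := h.sd ht hA he
  have hL := h.L_pos ht
  have hA' : 0 < |iA γ t| := abs_pos.2 hA
  obtain ⟨u, hu⟩ := hs.extent
  refine ⟨u, ?_⟩
  have hVe := h.V_eq ht hA he
  have hv0 := hs.v0
  set v := mv (fun u => fv γ u t / iL γ t) (fun u => iL γ t / iA γ t * fk γ u t) with hv
  have hvV : v ≤ eV γ t := by
    rw [← hVe]
    exact hs.v_le hs.two_pi_le
  have hX : |iA γ t| ^ 2 / 12 * v = π ^ 2 * eV γ t / 3 := by
    rw [← hVe]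
    have hπ := Real.pi_pos.ne'
    field_simp
    ring
  rw [hX, avg_scale (v := fun u => fv γ u t) (g := fun u => fk γ u t * fy γ e u t)
      (a := iL γ t / iA γ t * (|iA γ t| / iL γ t)) (fun u => rfl) (fun u => by ring)] at hu
  have e1 : ∫ u in (0 : ℝ)..1, fk γ u t * fy γ e u t * fv γ u t = iY γ e t := by
    unfold iY
    congr 1; ext u; ring
  rw [e1] at hu
  have h1 : √(π ^ 2 * eV γ t / 3) * √v ≤ √(π ^ 2 * eV γ t / 3) * √(eV γ t) :=
    mul_le_mul_of_nonneg_left (Real.sqrt_le_sqrt hvV) (Real.sqrt_nonneg _)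
  unfold eP eR
  have h2 : iL γ t / iA γ t * (|iA γ t| / iL γ t) / iL γ t * iY γ e t +
      (1 - √(π ^ 2 * eV γ t / 3) - √(π ^ 2 * eV γ t / 3) * √(eV γ t)) ≤
      |iA γ t| / iL γ t * fy γ e u t := by linarith
  have h3 : 0 ≤ iL γ t / |iA γ t| := by positivity
  have h4 := mul_le_mul_of_nonneg_left h2 h3
  have e2 : iL γ t / |iA γ t| * (iL γ t / iA γ t * (|iA γ t| / iL γ t) / iL γ t * iY γ e t +
      (1 - √(π ^ 2 * eV γ t / 3) - √(π ^ 2 * eV γ t / 3) * √(eV γ t))) =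
      iY γ e t / iA γ t + iL γ t / |iA γ t| *
        (1 - √(π ^ 2 * eV γ t / 3) - √(π ^ 2 * eV γ t / 3) * √(eV γ t)) := by
    have hLn := hL.ne'
    have hAn := hA'.ne'
    field_simp
  have e3 : iL γ t / |iA γ t| * (|iA γ t| / iL γ t * fy γ e u t) = fy γ e u t := by
    have hLn := hL.ne'
    have hAn := hA'.ne'
    field_simp
  rw [e2, e3] at h4
  exact h4

end IsFlow

end Pool.Agent.helper19.EL
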