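import Pool.Agent.helper19.EL.Ineq

/-!
# EL: no migration near multiply covered circles
-/

set_option autoImplicit false

open scoped Real ContDiff ComplexConjugate InnerProductSpace
open MeasureTheory intervalIntegral

namespace Pool.Agent.helper19.EL

variable {γ : ℝ → ℝ → ℂ} {T : ℝ}

namespace IsFlow

variable (h : IsFlow γ T)
include h

theorem cV : ContinuousOn (eV γ) (Set.Ico 0 T) :=
  ((h.cL.mul h.cW).sub (h.cA.pow 2)).div_const _

theorem V' {t : ℝ} (ht : t ∈ Set.Ioo 0 T) : HasDerivAt (eV γ) (dV γ t) t := by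
  have h1 := (((h.L' ht).mul (h.W' ht)).sub ((h.A' ht).pow 2)).div_const (4 * π ^ 2)
  refine h1.congr_deriv ?_
  unfold dV iFk iFF
  norm_num

/-- the energy excess stays small -/
theorem V_le (hA : iA γ 0 ≠ 0) (hV : eV γ 0 ≤ 1 / 10) {t : ℝ} (ht : t ∈ Set.Ico 0 T) :
    eV γ t ≤ eV γ 0 := by
  rcases eq_or_lt_of_le ht.1 with h0 | h0
  · rw [← h0]
  have hT : 0 < T := h0.trans ht.2
  have hAt : ∀ s ∈ Set.Ico 0 T, iA γ s ≠ 0 := fun s hs => by rw [h.A_const hs]; exact hA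
  apply le_of_forall_pos_le_add
  intro η hη
  -- a small slope
  obtain ⟨ε, hε0, hε1, hε2⟩ : ∃ ε : ℝ, 0 < ε ∧ ε * (1 + T) ≤ 1 / 4 ∧ ε * (1 + T) ≤ η := by
    refine ⟨min (1 / 4) η / (1 + T), by positivity, ?_, ?_⟩
    · rw [div_mul_cancel₀ _ (by positivity)]; exact min_le_left _ _
    · rw [div_mul_cancel₀ _ (by positivity)]; exact min_le_right _ _
  -- a small starting time
  obtain ⟨δ, hδ0, hδt, hδV⟩ : ∃ δ : ℝ, 0 < δ ∧ δ < t ∧ eV γ δ ≤ eV γ 0 + ε := by
    have hc := h.cV 0 ⟨le_rfl, hT⟩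
    have hc' : Filter.Tendsto (eV γ) (nhdsWithin 0 (Set.Ioo 0 t)) (nhds (eV γ 0)) :=
      hc.mono_left (nhdsWithin_mono _ fun x hx => ⟨hx.1.le, hx.2.trans ht.2⟩)
    have h1 : ∀ᶠ x in nhdsWithin 0 (Set.Ioo 0 t), eV γ x < eV γ 0 + ε :=
      hc'.eventually (gt_mem_nhds (by linarith))
    have h2 : (nhdsWithin (0 : ℝ) (Set.Ioo 0 t)).NeBot := by
      rw [← mem_closure_iff_nhdsWithin_neBot, closure_Ioo h0.ne]
      exact ⟨le_rfl, h0.le⟩
    obtain ⟨x, hx1, hx2⟩ := (h1.and self_mem_nhdsWithin).exists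
    exact ⟨x, hx2.1, hx2.2, hx1.le⟩
  have hsub : Set.Icc δ t ⊆ Set.Ico 0 T := fun x hx => ⟨hδ0.le.trans hx.1, lt_of_le_of_lt hx.2 ht.2⟩
  have h1 := image_le_of_deriv_right_lt_deriv_boundary' (f := eV γ) (f' := dV γ) (a := δ) (b := t)
    (h.cV.mono hsub)
    (fun x hx => (h.V' ⟨lt_of_lt_of_le hδ0 hx.1, hx.2.trans ht.2⟩).hasDerivWithinAt)
    (B := fun x => eV γ 0 + ε + ε * x) (B' := fun _ => ε) (by
      show eV γ δ ≤ eV γ 0 + ε + ε * δ
      nlinarith)
    (by fun_prop)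
    (fun x _ => (((hasDerivAt_id x).const_mul ε).const_add (eV γ 0 + ε)).congr_deriv
      (by ring) |>.hasDerivWithinAt)
    (fun x hx he => by
      have hx' : x ∈ Set.Ico 0 T := hsub ⟨hx.1, hx.2.le⟩
      have h2 : eV γ x ≤ 1 / 2 := by
        rw [he]
        have : ε * x ≤ ε * T := mul_le_mul_of_nonneg_left hx'.2.le hε0.le
        nlinarith
      exact lt_of_le_of_lt (h.dV_nonpos hx' (hAt x hx') h2) hε0)
    (x := t) ⟨hδt.le, le_rfl⟩
  have h3 : ε * t ≤ ε * T := mul_le_mul_of_nonneg_left ht.2.le hε0.le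
  nlinarith

theorem V_anti (hA : iA γ 0 ≠ 0) (hV : eV γ 0 ≤ 1 / 10) : AntitoneOn (eV γ) (Set.Ico 0 T) := by
  apply antitoneOn_of_deriv_nonpos (convex_Ico 0 T) h.cV
  · rw [interior_Ico]
    exact fun t ht => (h.V' ht).differentiableAt.differentiableWithinAt
  · rw [interior_Ico]
    intro t ht
    have ht' : t ∈ Set.Ico 0 T := ⟨ht.1.le, ht.2⟩
    rw [(h.V' ht).deriv]
    refine h.dV_nonpos ht' (by rw [h.A_const ht']; exact hA) ?_
    have := h.V_le hA hV ht'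
    linarith

/-- the monotone quantity -/
theorem mono {e : ℂ} (he : ‖e‖ = 1) (hA : iA γ 0 ≠ 0) (hV : eV γ 0 ≤ 1 / 10) :
    MonotoneOn (fun t => eP γ e t + eR γ t * (7 / 8 - 35 / 4 * eV γ t)) (Set.Ico 0 T) := by
  have hcongr : ∀ t ∈ Set.Ico 0 T, eP γ e t + eR γ t * (7 / 8 - 35 / 4 * eV γ t) =
      iY γ e t / iA γ 0 + iL γ t / |iA γ 0| * (7 / 8 - 35 / 4 * eV γ t) := by
    intro t ht
    unfold eP eR
    rw [h.A_const ht]
  have hm : MonotoneOn (fun t => iY γ e t / iA γ 0 + iL γ t / |iA γ 0| *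
      (7 / 8 - 35 / 4 * eV γ t)) (Set.Ico 0 T) := by
    have hd : ∀ t ∈ Set.Ioo 0 T, HasDerivAt (fun t => iY γ e t / iA γ 0 + iL γ t / |iA γ 0| *
        (7 / 8 - 35 / 4 * eV γ t)) (-(2 * iFn γ e t) / iA γ 0 +
          (iFk γ t / |iA γ 0| * (7 / 8 - 35 / 4 * eV γ t) +
            iL γ t / |iA γ 0| * (-(35 / 4 * dV γ t)))) t := by
      intro t ht
      exact ((h.Y' e ht).div_const _).add (((h.L' ht).div_const _).mul
        (((h.V' ht).const_mul (35 / 4)).const_sub (7 / 8)))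
    apply monotoneOn_of_deriv_nonneg (convex_Ico 0 T)
    · exact ((h.cY e).div_const _).add ((h.cL.div_const _).mul
        (continuousOn_const.sub (continuousOn_const.mul h.cV)))
    · rw [interior_Ico]
      exact fun t ht => (hd t ht).differentiableAt.differentiableWithinAt
    · rw [interior_Ico]
      intro t ht
      have ht' : t ∈ Set.Ico 0 T := ⟨ht.1.le, ht.2⟩
      rw [(hd t ht).deriv]
      have hAt := h.A_const ht'
      have h1 := h.speed_ineq ht' (by rw [hAt]; exact hA) he ((h.V_le hA hV ht').trans hV)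
      unfold eR at h1
      rw [hAt] at h1
      have h2 : -(2 * |iFn γ e t| / |iA γ 0|) ≤ -(2 * iFn γ e t) / iA γ 0 := by
        have h3 : |(2 * iFn γ e t) / iA γ 0| = 2 * |iFn γ e t| / |iA γ 0| := by
          rw [abs_div, abs_mul, abs_of_pos (by norm_num : (0 : ℝ) < 2)]
        rw [← h3, neg_div]
        exact neg_le_neg (le_abs_self _)
      linarith
  exact hm.congr fun t ht => (hcongr t ht).symm

theorem R_pos (hA : iA γ 0 ≠ 0) {t : ℝ} (ht : t ∈ Set.Ico 0 T) : 0 < eR γ t := by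
  unfold eR
  rw [h.A_const ht]
  exact div_pos (h.L_pos ht) (abs_pos.2 hA)

/-- some point is beyond the initial centre, at any time and in any direction -/
theorem beyond {e : ℂ} (he : ‖e‖ = 1) (hA : iA γ 0 ≠ 0) (hV : eV γ 0 ≤ 1 / 10) {t : ℝ}
    (ht : t ∈ Set.Ico 0 T) : ∃ u, eP γ e 0 < fy γ e u t := by
  have h0 : (0 : ℝ) ∈ Set.Ico 0 T := ⟨le_rfl, lt_of_le_of_lt ht.1 ht.2⟩
  have hAt : iA γ t ≠ 0 := by rw [h.A_const ht]; exact hA
  obtain ⟨u, hu⟩ := h.extent_ineq ht hAt he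
  refine ⟨u, lt_of_lt_of_le ?_ hu⟩
  have h1 := h.mono he hA hV h0 ht ht.1
  simp only at h1
  have h2 := (ext_alg (h.V_nonneg ht hAt) ((h.V_le hA hV ht).trans hV)).1
  have h3 := h.R_pos hA ht
  have h4 := h.R_pos hA h0
  have h5 : 0 ≤ eR γ 0 * (7 / 8 - 35 / 4 * eV γ 0) := mul_nonneg h4.le (by linarith)
  have h6 : eR γ t * (7 / 8 - 35 / 4 * eV γ t) < eR γ t * (1 - √(π ^ 2 * eV γ t / 3) -
      √(π ^ 2 * eV γ t / 3) * √(eV γ t)) := mul_lt_mul_of_pos_left h2 h3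
  linarith

/-- the initial curve has points on both sides of its centre -/
theorem below {e : ℂ} (he : ‖e‖ = 1) (hA : iA γ 0 ≠ 0) (hV : eV γ 0 ≤ 1 / 10) (hT : 0 < T) :
    ∃ u, fy γ e u 0 < eP γ e 0 := by
  have h0 : (0 : ℝ) ∈ Set.Ico 0 T := ⟨le_rfl, hT⟩
  obtain ⟨u, hu⟩ := h.beyond (e := -e) (by rw [norm_neg]; exact he) hA hV h0
  refine ⟨u, ?_⟩
  have h1 : ∀ u, fy γ (-e) u 0 = -fy γ e u 0 := by
    intro u
    unfold fy
    rw [map_neg, mul_neg, Complex.neg_re]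
  have h2 : eP γ (-e) 0 = -eP γ e 0 := by
    unfold eP iY
    rw [← neg_div, ← intervalIntegral.integral_neg]
    congr 2
    ext u
    rw [h1]
    ring
  rw [h1, h2] at hu
  linarith

/-- the centre -/
theorem centre_eq (e : ℂ) (hT : 0 < T) :
    (centre (fun u => γ u 0) * conj e).re = eP γ e 0 := by
  have h0 : (0 : ℝ) ∈ Set.Ico 0 T := ⟨le_rfl, hT⟩
  have hk : turning (fun u => γ u 0) = 1 / (2 * π) * iA γ 0 := rfl
  have hπ := Real.pi_pos.ne'
  have h1 : 2 * π * turning (fun u => γ u 0) = iA γ 0 := by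
    rw [hk]
    field_simp
  unfold centre
  rw [h1]
  unfold eP iY
  have c1 : Continuous fun u => ((fk γ u 0 * fv γ u 0 : ℝ) : ℂ) * γ u 0 := by
    have ck := h.sm_k.cont_u h0
    have cv := h.sm_v.cont_u h0
    have cγ := h.sm.cont_u h0
    exact (Complex.continuous_ofReal.comp (ck.mul cv)).mul cγ
  have h2 : ∫ u in (0 : ℝ)..1, fk γ u 0 * fv γ u 0 * fy γ e u 0 =
      ((∫ u in (0 : ℝ)..1, ((fk γ u 0 * fv γ u 0 : ℝ) : ℂ) * γ u 0) * conj e).re := by
    rw [← intervalIntegral.integral_mul_const]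
    have h3 := Complex.reCLM.intervalIntegral_comp_comm (μ := volume) (a := 0) (b := 1)
      (f := fun u => ((fk γ u 0 * fv γ u 0 : ℝ) : ℂ) * γ u 0 * conj e)
      (Continuous.intervalIntegrable (c1.mul continuous_const) 0 1)
    rw [Complex.reCLM_apply] at h3
    rw [← h3]
    congr 1
    ext u
    rw [Complex.reCLM_apply, show ((fk γ u 0 * fv γ u 0 : ℝ) : ℂ) * γ u 0 * conj e =
      ((fk γ u 0 * fv γ u 0 : ℝ) : ℂ) * (γ u 0 * conj e) by ring, Complex.re_ofReal_mul]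
    rfl
  rw [h2, div_mul_eq_mul_div, Complex.div_ofReal_re]
  rfl

end IsFlow

/-- the main theorem -/
theorem main {γ : ℝ → ℝ → ℂ} {T : ℝ} (hT : 0 < T) (h : IsFlow γ T)
    (hω : turning (fun u => γ u 0) ≠ 0)
    (hE : energy (fun u => γ u 0) * len (fun u => γ u 0) ≤
      2 * π ^ 2 * (turning (fun u => γ u 0) ^ 2 + 1 / 10)) :
    (∀ (e : ℂ) (a : ℝ), e ≠ 0 → (∀ u, a < (γ u 0 * conj e).re) →
      ∀ t ∈ Set.Ico 0 T, ∃ u, a < (γ u t * conj e).re) ∧
    (∀ t ∈ Set.Ico 0 T,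
      centre (fun u => γ u 0) ∈ closure (convexHull ℝ (Set.range fun u => γ u t))) ∧
    AntitoneOn (fun t => energy (fun u => γ u t) * len (fun u => γ u t)) (Set.Ico 0 T) := by
  have hπ := Real.pi_pos
  have hk : turning (fun u => γ u 0) = 1 / (2 * π) * iA γ 0 := rfl
  have hEn : ∀ t, energy (fun u => γ u t) = 1 / 2 * iW γ t := fun t => rfl
  have hLn : ∀ t, len (fun u => γ u t) = iL γ t := fun t => rfl
  have hA : iA γ 0 ≠ 0 := by
    intro h0
    rw [hk, h0, mul_zero] at hω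
    exact hω rfl
  have hV : eV γ 0 ≤ 1 / 10 := by
    rw [hk, hEn, hLn] at hE
    unfold eV
    rw [div_le_iff₀ (by positivity)]
    have e1 : 2 * π ^ 2 * ((1 / (2 * π) * iA γ 0) ^ 2 + 1 / 10) =
        (iA γ 0 ^ 2 + 1 / 10 * (4 * π ^ 2)) / 2 := by
      field_simp
      ring
    rw [e1] at hE
    linarith
  have hfy : ∀ (e : ℂ) (u t : ℝ), fy γ e u t = (γ u t * conj e).re := fun e u t => rfl
  refine ⟨?_, ?_, ?_⟩
  · intro e a he ha t ht
    have hn : 0 < ‖e‖ := norm_pos_iff.2 he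
    have he1 : ‖((‖e‖⁻¹ : ℝ) : ℂ) * e‖ = 1 := by
      rw [norm_mul, Complex.norm_real, Real.norm_of_nonneg (by positivity)]
      exact inv_mul_cancel₀ hn.ne'
    have hsc : ∀ z : ℂ, (z * conj (((‖e‖⁻¹ : ℝ) : ℂ) * e)).re = ‖e‖⁻¹ * (z * conj e).re := by
      intro z
      rw [map_mul, Complex.conj_ofReal,
        show z * (((‖e‖⁻¹ : ℝ) : ℂ) * conj e) = ((‖e‖⁻¹ : ℝ) : ℂ) * (z * conj e) by ring,
        Complex.re_ofReal_mul]
    obtain ⟨u₁, hu₁⟩ := h.below he1 hA hV hT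
    obtain ⟨u₂, hu₂⟩ := h.beyond he1 hA hV ht
    refine ⟨u₂, ?_⟩
    have h1 := hu₁.trans hu₂
    rw [hfy, hfy, hsc, hsc] at h1
    have h2 := lt_of_mul_lt_mul_left h1 (by positivity)
    exact (ha u₁).trans h2
  · intro t ht
    by_contra hc
    obtain ⟨f, a, hfa, hfb⟩ := geometric_hahn_banach_point_closed
      (convex_convexHull ℝ _).closure isClosed_closure hc
    -- the functional is a scalar product
    obtain ⟨w, hw⟩ : ∃ w : ℂ, ∀ z, f z = (z * conj w).re := by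
      refine ⟨(InnerProductSpace.toDual ℝ ℂ).symm f, fun z => ?_⟩
      have h1 := InnerProductSpace.toDual_symm_apply (𝕜 := ℝ) (x := z) (y := f)
      rw [← h1, Complex.inner]
    have hw0 : w ≠ 0 := by
      intro h0
      obtain ⟨b, hb⟩ := (Set.range_nonempty fun u => γ u t)
      have h1 := hfb b (subset_closure (subset_convexHull ℝ _ hb))
      rw [hw, h0, map_zero, mul_zero] at h1
      rw [hw, h0, map_zero, mul_zero] at hfa
      exact absurd (hfa.trans h1) (lt_irrefl _)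
    have hn : 0 < ‖w‖ := norm_pos_iff.2 hw0
    have he1 : ‖((-‖w‖⁻¹ : ℝ) : ℂ) * w‖ = 1 := by
      rw [norm_mul, Complex.norm_real, norm_neg, Real.norm_of_nonneg (by positivity)]
      exact inv_mul_cancel₀ hn.ne'
    have hsc : ∀ z : ℂ, (z * conj (((-‖w‖⁻¹ : ℝ) : ℂ) * w)).re = -‖w‖⁻¹ * (z * conj w).re := by
      intro z
      rw [map_mul, Complex.conj_ofReal,
        show z * (((-‖w‖⁻¹ : ℝ) : ℂ) * conj w) = ((-‖w‖⁻¹ : ℝ) : ℂ) * (z * conj w) by ring,
        Complex.re_ofReal_mul]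
    obtain ⟨u, hu⟩ := h.beyond he1 hA hV ht
    rw [← h.centre_eq _ hT, hfy, hsc, hsc, ← hw, ← hw] at hu
    have h1 := hfb (γ u t) (subset_closure (subset_convexHull ℝ _ ⟨u, rfl⟩))
    have h2 : f (centre fun u => γ u 0) < f (γ u t) := hfa.trans h1
    have h3 : 0 < ‖w‖⁻¹ := by positivity
    nlinarith
  · intro s hs t ht hst
    have h1 := h.V_anti hA hV hs ht hst
    have hAs := h.A_const hs
    have hAt := h.A_const ht
    unfold eV at h1
    rw [hAs, hAt, div_le_div_iff_of_pos_right (by positivity)] at h1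
    simp only [hEn, hLn]
    linarith

end Pool.Agent.helper19.EL
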