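import Pool.Agent.helper19.EL.StatB

/-!
# EL: the extent of one curve

* `cover`: the tangent turns through all directions.
* `extent`: some point of the curve is at least `1 - X - X √v` above the centre,
  `X = √(l² v / 12)`: `h = y - ⟨y⟩ + ν` has `h' = - (κ - 1) τ`.
-/

set_option autoImplicit false

open scoped Real
open MeasureTheory intervalIntegral

namespace Pool.Agent.helper19.EL

namespace SD

variable {l : ℝ} {ρ κ κ₁ κ₂ y τ ν : ℝ → ℝ} (h : SD l ρ κ κ₁ κ₂ y τ ν)
include h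

/-- the angle of `(τ, ν)` -/
theorem rot : ∃ Θ : ℝ → ℝ, Continuous Θ ∧ Θ 0 = 0 ∧ Θ 1 = l ∧
    ∀ u, ((τ u : ℂ) + ν u * Complex.I) * Complex.exp ((Θ u : ℂ) * Complex.I) =
      (τ 0 : ℂ) + ν 0 * Complex.I := by
  have hκ := h.κc
  have hρ := h.ρc
  have hg : Continuous fun x => l * ρ x * κ x := by fun_prop
  set Θ : ℝ → ℝ := fun u => ∫ x in (0 : ℝ)..u, l * ρ x * κ x with hΘ
  have hΘd : ∀ u, HasDerivAt Θ (l * ρ u * κ u) u := fun u =>
    intervalIntegral.integral_hasDerivAt_right (hg.intervalIntegrable _ _)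
      (hg.stronglyMeasurableAtFilter _ _) hg.continuousAt
  have hΘc : Continuous Θ := continuous_iff_continuousAt.2 fun u => (hΘd u).continuousAt
  have hΘ0 : Θ 0 = 0 := by simp [hΘ]
  have hΘ1 : Θ 1 = l := by
    have h1 : Θ 1 = l * avg ρ κ := by
      unfold avg
      rw [← intervalIntegral.integral_const_mul]
      simp only [hΘ]
      congr 1
      ext u
      ring
    rw [h1, h.κi, mul_one]
  -- `ζ exp (i Θ)` is constant
  have hζd : ∀ u, HasDerivAt (fun u => ((τ u : ℂ) + ν u * Complex.I) *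
      Complex.exp ((Θ u : ℂ) * Complex.I)) 0 u := by
    intro u
    have h1 : HasDerivAt (fun u => (τ u : ℂ) + ν u * Complex.I)
        ((l * ρ u * (κ u * ν u) : ℝ) + ((l * ρ u * (-(κ u * τ u)) : ℝ) : ℂ) * Complex.I) u :=
      (h.τd u).ofReal_comp.add ((h.νd u).ofReal_comp.mul_const Complex.I)
    have h2 : HasDerivAt (fun u => Complex.exp ((Θ u : ℂ) * Complex.I))
        (Complex.exp ((Θ u : ℂ) * Complex.I) * (((l * ρ u * κ u : ℝ) : ℂ) * Complex.I)) u :=
      ((hΘd u).ofReal_comp.mul_const Complex.I).cexp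
    refine (h1.mul h2).congr_deriv ?_
    push_cast
    linear_combination ((l * ρ u * κ u * ν u : ℂ) * Complex.exp ((Θ u : ℂ) * Complex.I)) *
      Complex.I_mul_I
  have hconst : ∀ u, ((τ u : ℂ) + ν u * Complex.I) * Complex.exp ((Θ u : ℂ) * Complex.I) =
      (τ 0 : ℂ) + ν 0 * Complex.I := by
    intro u
    have h1 := is_const_of_deriv_eq_zero (fun u => (hζd u).differentiableAt)
      (fun u => (hζd u).deriv) u 0
    simpa [hΘ0] using h1
  exact ⟨Θ, hΘc, hΘ0, hΘ1, hconst⟩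

/-- the total curvature is at least `2π` -/
theorem two_pi_le : 2 * π ≤ l := by
  obtain ⟨Θ, -, -, h1, hc⟩ := h.rot
  have h2 := hc 1
  have hn0 : ‖(τ 0 : ℂ) + ν 0 * Complex.I‖ = 1 := by
    rw [Complex.norm_add_mul_I, h.circ 0, Real.sqrt_one]
  have hb0 : (τ 0 : ℂ) + ν 0 * Complex.I ≠ 0 := by
    intro h0
    rw [h0, norm_zero] at hn0
    norm_num at hn0
  have e1 : τ 1 = τ 0 := by have := h.τp 0; rwa [zero_add] at this
  have e2 : ν 1 = ν 0 := by have := h.νp 0; rwa [zero_add] at this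
  rw [e1, e2, h1] at h2
  have h3 : Complex.exp ((l : ℂ) * Complex.I) = 1 := by
    have : ((τ 0 : ℂ) + ν 0 * Complex.I) * Complex.exp ((l : ℂ) * Complex.I) =
      ((τ 0 : ℂ) + ν 0 * Complex.I) * 1 := by rw [h2, mul_one]
    exact mul_left_cancel₀ hb0 this
  rw [Complex.exp_eq_one_iff] at h3
  obtain ⟨n, hn⟩ := h3
  have h4 : l = n * (2 * π) := by
    have := congrArg Complex.im hn
    simpa using this
  have hπ := Real.pi_pos
  have hl := h.l0
  have h5 : (0 : ℝ) < n := by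
    by_contra hneg
    push Not at hneg
    nlinarith
  have h6 : (1 : ℝ) ≤ n := by
    have : 0 < n := by exact_mod_cast h5
    exact_mod_cast this
  nlinarith

/-- the unit vector `(τ, ν)` takes all values -/
theorem cover (z : ℂ) (hz : ‖z‖ = 1) :
    ∃ u, (τ u : ℂ) + ν u * Complex.I = z := by
  obtain ⟨Θ, hΘc, hΘ0, hΘ1, hconst⟩ := h.rot
  have hl := h.two_pi_le
  -- the modulus
  have hn0 : ‖(τ 0 : ℂ) + ν 0 * Complex.I‖ = 1 := by
    rw [Complex.norm_add_mul_I, h.circ 0, Real.sqrt_one]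
  have hz0 : z ≠ 0 := by
    intro hz0
    rw [hz0, norm_zero] at hz
    norm_num at hz
  set b : ℂ := ((τ 0 : ℂ) + ν 0 * Complex.I) / z with hb
  have hbn : ‖b‖ = 1 := by rw [hb, norm_div, hn0, hz, div_one]
  -- an angle in `[0, 2π)`
  obtain ⟨c, hc0, hc1, hc⟩ : ∃ c : ℝ, 0 ≤ c ∧ c ≤ 2 * π ∧
      Complex.exp ((c : ℂ) * Complex.I) = b := by
    have hb1 : Complex.exp ((Complex.arg b : ℂ) * Complex.I) = b := by
      have := Complex.norm_mul_exp_arg_mul_I b
      rwa [hbn, Complex.ofReal_one, one_mul] at this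
    have ha1 := Complex.neg_pi_lt_arg b
    have ha2 := Complex.arg_le_pi b
    rcases le_or_gt 0 (Complex.arg b) with h0 | h0
    · exact ⟨_, h0, by linarith [Real.pi_pos], hb1⟩
    · refine ⟨Complex.arg b + 2 * π, by linarith, by linarith, ?_⟩
      push_cast
      rw [add_mul, Complex.exp_add, hb1, Complex.exp_two_pi_mul_I, mul_one]
  obtain ⟨u, _, hu⟩ := intermediate_value_Icc (zero_le_one' ℝ) hΘc.continuousOn
    (show c ∈ Set.Icc (Θ 0) (Θ 1) from ⟨by rw [hΘ0]; exact hc0, by rw [hΘ1]; linarith⟩)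
  refine ⟨u, ?_⟩
  have h1 := hconst u
  rw [hu, hc, hb] at h1
  have hb0 : (τ 0 : ℂ) + ν 0 * Complex.I ≠ 0 := by
    intro h0
    rw [h0, norm_zero] at hn0
    norm_num at hn0
  rw [mul_div_assoc', div_eq_iff hz0, mul_comm _ z] at h1
  exact mul_right_cancel₀ hb0 h1

/-- a point far above the centre -/
theorem extent :
    ∃ u, avg ρ (fun u => κ u * y u) + (1 - √(l ^ 2 / 12 * mv ρ κ) -
      √(l ^ 2 / 12 * mv ρ κ) * √(mv ρ κ)) ≤ y u := by
  have hκ := h.κc
  have hρ := h.ρc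
  have hy := h.yc
  have hτ := h.τc
  have hν := h.νc
  obtain ⟨u, hu⟩ := h.cover (-Complex.I) (by simp)
  have hνu : ν u = -1 := by
    have := congrArg Complex.im hu
    simpa using this
  refine ⟨u, ?_⟩
  set X := √(l ^ 2 / 12 * mv ρ κ) with hX
  have hv := h.v0
  have hX0 : 0 ≤ X := Real.sqrt_nonneg _
  have hXs : X ^ 2 = l ^ 2 / 12 * mv ρ κ := Real.sq_sqrt (by positivity)
  -- the function `h`
  set m := avg ρ y with hm
  have hb : ∀ x, |y x - m + ν x| ≤ X := by
    intro x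
    have h1 : (y x - m + ν x) ^ 2 ≤ l ^ 2 / 12 * avg ρ (fun u => ((1 - κ u) * τ u) ^ 2) := by
      refine sup_bound (f := fun x => y x - m + ν x) (f₁ := fun u => (1 - κ u) * τ u)
        h.ρc h.ρ0 h.ρp h.ρi (fun x => ?_) (by fun_prop) ?_ ?_ ?_ x
      · exact (((h.yd x).sub_const m).add (h.νd x)).congr_deriv (by ring)
      · intro x
        show y (x + 1) - m + ν (x + 1) = y x - m + ν x
        rw [h.yp x, h.νp x]
      · intro x
        show (1 - κ (x + 1)) * τ (x + 1) = (1 - κ x) * τ x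
        rw [h.κp x, h.τp x]
      · rw [avg_add hρ (by fun_prop) (by fun_prop), avg_sub hρ (by fun_prop) (by fun_prop),
          avg_const _ h.ρi, h.νi]
        rw [hm]
        ring
    have h2 : avg ρ (fun u => ((1 - κ u) * τ u) ^ 2) ≤ mv ρ κ := by
      unfold mv
      refine avg_mono hρ h.ρ0 (by fun_prop) (by fun_prop) (fun u => ?_)
      have h3 : τ u ^ 2 ≤ 1 := by nlinarith [h.circ u, sq_nonneg (ν u)]
      nlinarith [sq_nonneg (κ u - 1)]
    apply abs_le_of_sq_le_sq _ hX0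
    rw [hXs]
    exact h1.trans (mul_le_mul_of_nonneg_left h2 (by positivity))
  -- the centre
  have hc : avg ρ (fun u => κ u * y u) - m = avg ρ (fun u => (y u - m + ν u) * (κ u - 1)) := by
    have e1 : avg ρ (fun u => (y u - m + ν u) * (κ u - 1)) =
        avg ρ (fun u => (((κ u * y u - y u) - m * κ u) + m) + (κ u * ν u - ν u)) := by
      congr 1; ext u; ring
    rw [e1, avg_add hρ (by fun_prop) (by fun_prop), avg_add hρ (by fun_prop) (by fun_prop),
      avg_sub hρ (by fun_prop) (by fun_prop), avg_sub hρ (by fun_prop) (by fun_prop),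
      avg_sub hρ (by fun_prop) (by fun_prop), avg_mul, avg_const _ h.ρi, h.κi, h.κν, h.νi]
    rw [hm]
    ring
  have hc2 : avg ρ (fun u => (y u - m + ν u) * (κ u - 1)) ≤ X * √(mv ρ κ) := by
    have h1 := cs (f := fun u => y u - m + ν u) (g := fun u => κ u - 1) (ρ := ρ)
      (by fun_prop) (by fun_prop) hρ (fun u => (h.ρ0 u).le)
    have h2 : avg ρ (fun u => (y u - m + ν u) ^ 2) ≤ X ^ 2 := by
      have h3 : avg ρ (fun _ => X ^ 2) = X ^ 2 := avg_const _ h.ρi
      rw [← h3]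
      refine avg_mono hρ h.ρ0 (by fun_prop) (by fun_prop) (fun u => ?_)
      exact sq_le_sq' (by linarith [(abs_le.1 (hb u)).1]) (abs_le.1 (hb u)).2
    have h4 : avg ρ (fun u => (y u - m + ν u) * (κ u - 1)) ^ 2 ≤ (X * √(mv ρ κ)) ^ 2 := by
      rw [mul_pow, Real.sq_sqrt hv]
      exact h1.trans (mul_le_mul_of_nonneg_right h2 hv)
    exact (abs_le_of_sq_le_sq' h4 (by positivity)).2
  have h5 := (abs_le.1 (hb u)).1
  rw [hνu] at h5
  linarith

end SD

end Pool.Agent.helper19.EL
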