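import Pool.Agent.helper19.EL.IntEvo
import Pool.Agent.helper19.EL.StatC

/-!
# EL: the inequalities at a fixed time

`R = L / |A|`, `A = ∫ k ds`, `V = (L W - A²) / (4 π²)`, `P = Y / A`.
-/

set_option autoImplicit false

open scoped Real ContDiff ComplexConjugate InnerProductSpace
open MeasureTheory intervalIntegral

namespace Pool.Agent.helper19.EL

/-- the normalized energy excess -/
noncomputable def eV (γ : ℝ → ℝ → ℂ) (t : ℝ) : ℝ := (iL γ t * iW γ t - iA γ t ^ 2) / (4 * π ^ 2)

/-- the radius -/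
noncomputable def eR (γ : ℝ → ℝ → ℂ) (t : ℝ) : ℝ := iL γ t / |iA γ t|

/-- the component of the centre -/
noncomputable def eP (γ : ℝ → ℝ → ℂ) (e : ℂ) (t : ℝ) : ℝ := iY γ e t / iA γ t

variable {γ : ℝ → ℝ → ℂ} {T : ℝ}

/-- an integral in terms of an average -/
theorem avg_scale {ρ f g v : ℝ → ℝ} {L a : ℝ} (hρ : ∀ u, ρ u = v u / L)
    (hf : ∀ u, f u = a * g u) : avg ρ f = a / L * ∫ u in (0 : ℝ)..1, g u * v u := by
  unfold avg
  rw [← intervalIntegral.integral_const_mul]
  congr 1
  ext u
  rw [hρ, hf]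
  ring

namespace IsFlow

variable (h : IsFlow γ T)
include h

theorem L_pos {t : ℝ} (ht : t ∈ Set.Ico 0 T) : 0 < iL γ t := by
  unfold iL
  apply intervalIntegral.intervalIntegral_pos_of_pos
    ((h.sm_v.cont_u ht).intervalIntegrable 0 1) (fun u => h.v_pos ht u) one_pos

/-- the normalized data -/
theorem sd {t : ℝ} (ht : t ∈ Set.Ico 0 T) (hA : iA γ t ≠ 0) {e : ℂ} (he : ‖e‖ = 1) :
    SD |iA γ t| (fun u => fv γ u t / iL γ t) (fun u => iL γ t / iA γ t * fk γ u t)
      (fun u => iL γ t ^ 2 / (iA γ t * |iA γ t|) * fk1 γ u t)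
      (fun u => iL γ t ^ 3 / iA γ t ^ 3 * fk2 γ u t)
      (fun u => |iA γ t| / iL γ t * fy γ e u t) (fun u => fa γ e u t)
      (fun u => iA γ t / |iA γ t| * fb γ e u t) := by
  have hL := h.L_pos ht
  have hA' : 0 < |iA γ t| := abs_pos.2 hA
  have hAA : |iA γ t| * |iA γ t| = iA γ t * iA γ t := abs_mul_abs_self _
  have hAA2 : |iA γ t| ^ 2 = iA γ t ^ 2 := sq_abs _
  have cv := h.sm_v.cont_u ht
  have ck2 := h.sm_k2.cont_u ht
  generalize hLe : iL γ t = L at *
  generalize hAe : iA γ t = A at *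
  generalize hBe : |A| = B at *
  have hB : B ≠ 0 := hA'.ne'
  have hL' : L ≠ 0 := hL.ne'
  refine ⟨hA', by fun_prop, fun u => div_pos (h.v_pos ht u) hL, by fun_prop, fun u => ?_,
    fun u => ?_, fun u => ?_, fun u => ?_, fun u => ?_, fun u => ?_, fun u => ?_, fun u => ?_,
    fun u => ?_, fun u => ?_, fun u => ?_, fun u => ?_, ?_, ?_, ?_⟩
  · refine ((h.d_k ht u).const_mul _).congr_deriv ?_
    field_simp
  · refine ((h.d_k1 ht u).const_mul _).congr_deriv ?_
    field_simp
    linear_combination (-fk2 γ u t * fv γ u t) * hAA2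
  · refine ((h.d_y e ht u).const_mul _).congr_deriv ?_
    field_simp
  · refine (h.d_a e ht u).congr_deriv ?_
    field_simp
  · refine ((h.d_b e ht u).const_mul _).congr_deriv ?_
    field_simp
    linear_combination (fv γ u t * fk γ u t * fa γ e u t) * hAA2
  · have h1 : fa γ e u t ^ 2 + fb γ e u t ^ 2 = 1 := by
      have h2 : ‖fT γ u t * conj e‖ = 1 := by
        rw [norm_mul, RCLike.norm_conj, he, mul_one]
        exact norm_tang (h.ne ht u)
      have h3 : fb γ e u t = -(fT γ u t * conj e).im := by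
        unfold fb
        rw [mul_assoc, Complex.I_mul_re]
      have h4 : ‖fT γ u t * conj e‖ ^ 2 = (fT γ u t * conj e).re ^ 2 +
          (fT γ u t * conj e).im ^ 2 := by
        rw [← Complex.normSq_eq_norm_sq, Complex.normSq_apply]
        ring
      rw [h3]
      unfold fa
      rw [h2] at h4
      nlinarith
    have h5 : (A / B) ^ 2 = 1 := by
      rw [div_pow, hAA2]
      field_simp
    rw [mul_pow, h5, one_mul]
    exact h1
  · show fv γ (u + 1) t / L = _
    rw [h.p_v ht]
  · show L / A * fk γ (u + 1) t = _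
    rw [h.p_k ht]
  · show L ^ 2 / (A * B) * fk1 γ (u + 1) t = _
    rw [h.p_k1 ht]
  · show B / L * fy γ e (u + 1) t = _
    rw [h.p_y e ht]
  · show fa γ e (u + 1) t = _
    rw [h.p_a e ht]
  · show A / B * fb γ e (u + 1) t = _
    rw [h.p_b e ht]
  · rw [intervalIntegral.integral_div]
    unfold iL at hLe
    rw [hLe, div_self hL']
  · rw [avg_scale (v := fun u => fv γ u t) (g := fun u => fk γ u t) (fun u => rfl) (fun u => rfl)]
    unfold iA at hAe
    rw [hAe]
    field_simp
  · rw [avg_scale (v := fun u => fv γ u t) (g := fun u => fb γ e u t) (fun u => rfl)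
      (fun u => rfl)]
    have h1 : ∫ u in (0 : ℝ)..1, fb γ e u t * fv γ u t = 0 := by
      have cb : Continuous fun u => fb γ e u t :=
        continuous_iff_continuousAt.2 fun u => (h.d_b e ht u).continuousAt
      refine int_der (f := fun u => (Complex.I * γ u t * conj e).re) (fun u => ?_)
        (by fun_prop) (fun u => by
          show (Complex.I * γ (u + 1) t * conj e).re = _
          rw [h.p_γ ht])
      have h2 := hasDerivAt_comp ((h.sm.hasDerivAt_u ht u).const_mul Complex.I) e
      rw [h.pu_γ ht u] at h2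
      refine h2.congr_deriv ?_
      unfold fb
      have e1 : Complex.I * ((fv γ u t : ℂ) * fT γ u t) * conj e =
          ((fv γ u t : ℝ) : ℂ) * (Complex.I * fT γ u t * conj e) := by ring
      rw [e1, Complex.re_ofReal_mul]
      ring
    rw [h1, mul_zero]

end IsFlow

end Pool.Agent.helper19.EL
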