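import Pool.Agent.helper19.EL.Per

/-!
# EL: one closed curve, normalized to `k = 1 + φ` with `φ` of mean zero

`SD l ρ κ κ₁ κ₂ y τ ν`: a closed curve of length `l = 2π ω` (after scaling), with weight `ρ`
(`ds = l ρ du`, `∫ ρ = 1`), curvature `κ` with arc length derivatives `κ₁`, `κ₂`; for a fixed unit vector `e`:
`y = ⟨c, e⟩`, `τ = ⟨T, e⟩`, `ν = ⟨N, e⟩`.

* `F_kappa`: `⟨F κ⟩ = - ⟨κ₁²⟩ + ⟨κ⁴⟩ / 2`; `F_one`: `⟨F⟩ = ⟨κ³⟩ / 2`.
* `lower`: from `⟨(F - α κ - β)²⟩ ≥ 0` with `α = (m - 1/3) / 4`, `β = (⟨κ³⟩ - 2 α) / 2`.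
* `z_le`: `⟨φ⁴⟩ ≤ (l² / 12) ⟨φ²⟩ ⟨κ₁²⟩`, `w_sq`: `⟨φ³⟩² ≤ ⟨φ²⟩ ⟨φ⁴⟩`.
* `F_nu`: `|⟨F κ ν⟩| ≤ (⟨κ⁴⟩ - 1) / 6 + ⟨κ₁²⟩`.
-/

set_option autoImplicit false

open scoped Real
open MeasureTheory intervalIntegral

namespace Pool.Agent.helper19.EL

/-- normalized data of a closed curve -/
structure SD (l : ℝ) (ρ κ κ₁ κ₂ y τ ν : ℝ → ℝ) : Prop where
  l0 : 0 < l
  ρc : Continuous ρ
  ρ0 : ∀ u, 0 < ρ u
  κ2c : Continuous κ₂
  κd : ∀ u, HasDerivAt κ (l * ρ u * κ₁ u) u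
  κ1d : ∀ u, HasDerivAt κ₁ (l * ρ u * κ₂ u) u
  yd : ∀ u, HasDerivAt y (l * ρ u * τ u) u
  τd : ∀ u, HasDerivAt τ (l * ρ u * (κ u * ν u)) u
  νd : ∀ u, HasDerivAt ν (l * ρ u * (-(κ u * τ u))) u
  circ : ∀ u, τ u ^ 2 + ν u ^ 2 = 1
  ρp : Function.Periodic ρ 1
  κp : Function.Periodic κ 1
  κ1p : Function.Periodic κ₁ 1
  yp : Function.Periodic y 1
  τp : Function.Periodic τ 1
  νp : Function.Periodic ν 1
  ρi : ∫ u in (0 : ℝ)..1, ρ u = 1
  κi : avg ρ κ = 1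
  νi : avg ρ ν = 0

variable {l : ℝ} {ρ κ κ₁ κ₂ y τ ν : ℝ → ℝ}

theorem avg_add {f g : ℝ → ℝ} (hρ : Continuous ρ) (hf : Continuous f) (hg : Continuous g) :
    avg ρ (fun u => f u + g u) = avg ρ f + avg ρ g := by
  unfold avg
  rw [← intervalIntegral.integral_add (Continuous.intervalIntegrable (by fun_prop) 0 1)
    (Continuous.intervalIntegrable (by fun_prop) 0 1)]
  congr 1
  ext u
  ring

theorem avg_sub {f g : ℝ → ℝ} (hρ : Continuous ρ) (hf : Continuous f) (hg : Continuous g) :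
    avg ρ (fun u => f u - g u) = avg ρ f - avg ρ g := by
  unfold avg
  rw [← intervalIntegral.integral_sub (Continuous.intervalIntegrable (by fun_prop) 0 1)
    (Continuous.intervalIntegrable (by fun_prop) 0 1)]
  congr 1
  ext u
  ring

theorem avg_mul (a : ℝ) (f : ℝ → ℝ) : avg ρ (fun u => a * f u) = a * avg ρ f := by
  unfold avg
  rw [← intervalIntegral.integral_const_mul]
  congr 1
  ext u
  ring

theorem avg_neg (f : ℝ → ℝ) : avg ρ (fun u => -f u) = -avg ρ f := by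
  have := avg_mul (ρ := ρ) (-1) f
  simpa using this

theorem avg_const (a : ℝ) (h : ∫ u in (0 : ℝ)..1, ρ u = 1) : avg ρ (fun _ => a) = a := by
  unfold avg
  rw [intervalIntegral.integral_const_mul, h, mul_one]

theorem avg_nonneg {f : ℝ → ℝ} (h0 : ∀ u, 0 < ρ u) (hf : ∀ u, 0 ≤ f u) : 0 ≤ avg ρ f := by
  unfold avg
  apply intervalIntegral.integral_nonneg zero_le_one
  intro u _
  exact mul_nonneg (hf u) (h0 u).le

theorem avg_mono {f g : ℝ → ℝ} (hρ : Continuous ρ) (h0 : ∀ u, 0 < ρ u) (hf : Continuous f)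
    (hg : Continuous g) (h : ∀ u, f u ≤ g u) : avg ρ f ≤ avg ρ g := by
  have h1 := avg_nonneg (ρ := ρ) (f := fun u => g u - f u) h0 (fun u => sub_nonneg.2 (h u))
  rw [avg_sub hρ hg hf] at h1
  linarith

theorem avg_abs {f : ℝ → ℝ} (hρ : Continuous ρ) (h0 : ∀ u, 0 < ρ u) (hf : Continuous f) :
    |avg ρ f| ≤ avg ρ (fun u => |f u|) := by
  rw [abs_le]
  constructor
  · rw [← avg_neg]
    exact avg_mono hρ h0 (by fun_prop) hf (fun u => neg_abs_le _)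
  · exact avg_mono hρ h0 hf (by fun_prop) (fun u => le_abs_self _)

/-- the average of an arc length derivative vanishes -/
theorem avg_der {f g : ℝ → ℝ} (hl : 0 < l) (hρ : Continuous ρ) (hg : Continuous g)
    (hd : ∀ u, HasDerivAt f (l * ρ u * g u) u) (hp : Function.Periodic f 1) : avg ρ g = 0 := by
  have h := int_der hd (by fun_prop) hp
  have h2 : ∫ u in (0 : ℝ)..1, l * ρ u * g u = l * avg ρ g := by
    unfold avg
    rw [← intervalIntegral.integral_const_mul]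
    congr 1
    ext u
    ring
  rw [h2] at h
  exact (mul_eq_zero.1 h).resolve_left hl.ne'

/-- the function `F` -/
noncomputable def Ff (κ κ₂ : ℝ → ℝ) (u : ℝ) : ℝ := κ₂ u + κ u ^ 3 / 2

namespace SD

variable (h : SD l ρ κ κ₁ κ₂ y τ ν)
include h

theorem κc : Continuous κ := continuous_iff_continuousAt.2 fun u => (h.κd u).continuousAt
theorem κ1c : Continuous κ₁ := continuous_iff_continuousAt.2 fun u => (h.κ1d u).continuousAt
theorem yc : Continuous y := continuous_iff_continuousAt.2 fun u => (h.yd u).continuousAt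
theorem τc : Continuous τ := continuous_iff_continuousAt.2 fun u => (h.τd u).continuousAt
theorem νc : Continuous ν := continuous_iff_continuousAt.2 fun u => (h.νd u).continuousAt

theorem Fc : Continuous (Ff κ κ₂) := by
  have h1 := h.κc
  have h2 := h.κ2c
  unfold Ff
  fun_prop

theorem F_one : avg ρ (Ff κ κ₂) = avg ρ (fun u => κ u ^ 3) / 2 := by
  have hκ := h.κc
  have hκ2 := h.κ2c
  have h1 : avg ρ κ₂ = 0 := avg_der h.l0 h.ρc h.κ2c h.κ1d h.κ1p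
  have h2 : avg ρ (Ff κ κ₂) = avg ρ κ₂ + avg ρ (fun u => κ u ^ 3 / 2) := by
    unfold Ff
    exact avg_add h.ρc h.κ2c (by fun_prop)
  have h3 : avg ρ (fun u => κ u ^ 3 / 2) = avg ρ (fun u => κ u ^ 3) / 2 := by
    have := avg_mul (ρ := ρ) (1 / 2) (fun u => κ u ^ 3)
    calc avg ρ (fun u => κ u ^ 3 / 2) = avg ρ (fun u => 1 / 2 * κ u ^ 3) := by
          congr 1; ext u; ring
      _ = avg ρ (fun u => κ u ^ 3) / 2 := by rw [this]; ring
  rw [h2, h1, h3, zero_add]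

theorem F_kappa : avg ρ (fun u => Ff κ κ₂ u * κ u) =
    -avg ρ (fun u => κ₁ u ^ 2) + avg ρ (fun u => κ u ^ 4) / 2 := by
  have hκ := h.κc
  have hκ1 := h.κ1c
  have hκ2 := h.κ2c
  have h1 : avg ρ (fun u => κ₂ u * κ u + κ₁ u * κ₁ u) = 0 := by
    refine avg_der (f := fun u => κ₁ u * κ u) h.l0 h.ρc (by fun_prop) (fun u => ?_)
      (h.κ1p.mul h.κp)
    exact ((h.κ1d u).mul (h.κd u)).congr_deriv (by ring)
  have h2 : avg ρ (fun u => Ff κ κ₂ u * κ u) =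
      avg ρ (fun u => (κ₂ u * κ u + κ₁ u * κ₁ u) + (1 / 2 * κ u ^ 4 - κ₁ u ^ 2)) := by
    congr 1; ext u; unfold Ff; ring
  rw [h2, avg_add h.ρc (by fun_prop) (by fun_prop), h1, avg_sub h.ρc (by fun_prop)
    (by fun_prop), avg_mul]
  ring

/-- the lower bound for the decay rate -/
theorem lower_gen (α β : ℝ) : 4 * α * avg ρ (fun u => Ff κ κ₂ u * κ u) + 4 * β * avg ρ (Ff κ κ₂) -
    2 * (α ^ 2 * avg ρ (fun u => κ u ^ 2) + 2 * α * β + β ^ 2) ≤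
    2 * avg ρ (fun u => Ff κ κ₂ u ^ 2) := by
  have hκ := h.κc
  have hF := h.Fc
  have h0 : 0 ≤ avg ρ (fun u => (Ff κ κ₂ u - α * κ u - β) ^ 2) :=
    avg_nonneg h.ρ0 (fun u => sq_nonneg _)
  have h1 : avg ρ (fun u => (Ff κ κ₂ u - α * κ u - β) ^ 2) =
      avg ρ (fun u => Ff κ κ₂ u ^ 2) - 2 * α * avg ρ (fun u => Ff κ κ₂ u * κ u) -
      2 * β * avg ρ (Ff κ κ₂) + α ^ 2 * avg ρ (fun u => κ u ^ 2) + 2 * α * β * avg ρ κ +
      β ^ 2 := by
    have h2 : avg ρ (fun u => (Ff κ κ₂ u - α * κ u - β) ^ 2) =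
        avg ρ (fun u => ((((Ff κ κ₂ u ^ 2 - 2 * α * (Ff κ κ₂ u * κ u)) - 2 * β * Ff κ κ₂ u) +
          α ^ 2 * κ u ^ 2) + 2 * α * β * κ u) + β ^ 2) := by
      congr 1; ext u; ring
    rw [h2, avg_add h.ρc (by fun_prop) (by fun_prop), avg_add h.ρc (by fun_prop) (by fun_prop),
      avg_add h.ρc (by fun_prop) (by fun_prop), avg_sub h.ρc (by fun_prop) (by fun_prop),
      avg_sub h.ρc (by fun_prop) (by fun_prop), avg_mul, avg_mul, avg_mul, avg_mul,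
      avg_const _ h.ρi]
  rw [h1, h.κi] at h0
  linarith

end SD

/-- the second moment -/
noncomputable def mv (ρ κ : ℝ → ℝ) : ℝ := avg ρ (fun u => (κ u - 1) ^ 2)

/-- the third moment -/
noncomputable def mw (ρ κ : ℝ → ℝ) : ℝ := avg ρ (fun u => (κ u - 1) ^ 3)

/-- the fourth moment -/
noncomputable def mz (ρ κ : ℝ → ℝ) : ℝ := avg ρ (fun u => (κ u - 1) ^ 4)

namespace SD

variable (h : SD l ρ κ κ₁ κ₂ y τ ν)
include h

theorem k2 : avg ρ (fun u => κ u ^ 2) = 1 + mv ρ κ := by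
  have hκ := h.κc
  have : avg ρ (fun u => (κ u - 1) ^ 2) = avg ρ (fun u => (κ u ^ 2 - 2 * κ u) + 1) := by
    congr 1; ext u; ring
  unfold mv
  rw [this, avg_add h.ρc (by fun_prop) (by fun_prop), avg_sub h.ρc (by fun_prop) (by fun_prop),
    avg_mul, avg_const _ h.ρi, h.κi]
  ring

theorem k3 : avg ρ (fun u => κ u ^ 3) = 1 + 3 * mv ρ κ + mw ρ κ := by
  have hκ := h.κc
  have h2 := h.k2
  have : avg ρ (fun u => (κ u - 1) ^ 3) =
      avg ρ (fun u => ((κ u ^ 3 - 3 * κ u ^ 2) + 3 * κ u) - 1) := by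
    congr 1; ext u; ring
  unfold mw
  rw [this, avg_sub h.ρc (by fun_prop) (by fun_prop), avg_add h.ρc (by fun_prop) (by fun_prop),
    avg_sub h.ρc (by fun_prop) (by fun_prop), avg_mul, avg_mul, avg_const _ h.ρi, h.κi, h2]
  ring

theorem k4 : avg ρ (fun u => κ u ^ 4) = 1 + 6 * mv ρ κ + 4 * mw ρ κ + mz ρ κ := by
  have hκ := h.κc
  have h2 := h.k2
  have h3 := h.k3
  have : avg ρ (fun u => (κ u - 1) ^ 4) =
      avg ρ (fun u => (((κ u ^ 4 - 4 * κ u ^ 3) + 6 * κ u ^ 2) - 4 * κ u) + 1) := by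
    congr 1; ext u; ring
  unfold mz
  rw [this, avg_add h.ρc (by fun_prop) (by fun_prop), avg_sub h.ρc (by fun_prop) (by fun_prop),
    avg_add h.ρc (by fun_prop) (by fun_prop), avg_sub h.ρc (by fun_prop) (by fun_prop), avg_mul,
    avg_mul, avg_mul, avg_const _ h.ρi, h.κi, h2, h3]
  ring

theorem v0 : 0 ≤ mv ρ κ := avg_nonneg h.ρ0 (fun _ => sq_nonneg _)

theorem z0 : 0 ≤ mz ρ κ := avg_nonneg h.ρ0 (fun u => by positivity)

theorem d0 : 0 ≤ avg ρ (fun u => κ₁ u ^ 2) := avg_nonneg h.ρ0 (fun _ => sq_nonneg _)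

/-- the main lower bound -/
theorem lower : avg ρ (fun u => κ₁ u ^ 2) / 3 + 4 / 9 * mv ρ κ + 17 / 6 * mv ρ κ ^ 2 +
    5 / 2 * (mv ρ κ * mw ρ κ) + mw ρ κ ^ 2 / 2 - mv ρ κ ^ 3 / 8 - mz ρ κ / 6 ≤
    2 * avg ρ (fun u => Ff κ κ₂ u ^ 2) -
      avg ρ (fun u => κ u ^ 2) * avg ρ (fun u => Ff κ κ₂ u * κ u) := by
  have h1 := h.lower_gen ((avg ρ (fun u => κ u ^ 2) - 1 / 3) / 4)
    ((avg ρ (fun u => κ u ^ 3) - (avg ρ (fun u => κ u ^ 2) - 1 / 3) / 2) / 2)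
  have h2 := h.k2
  have h3 := h.k3
  have h4 := h.k4
  have h5 := h.F_one
  have h6 := h.F_kappa
  rw [h5, h6, h2, h3, h4] at h1
  rw [h6, h2, h4]
  nlinarith [h1]

/-- `(κ - 1)²` is bounded pointwise -/
theorem sup (u : ℝ) : (κ u - 1) ^ 2 ≤ l ^ 2 / 12 * avg ρ (fun u => κ₁ u ^ 2) := by
  have hκ := h.κc
  refine sup_bound (f := fun u => κ u - 1) h.ρc h.ρ0 h.ρp h.ρi (fun u => ?_) h.κ1c ?_ h.κ1p ?_ u
  · exact (h.κd u).sub_const 1
  · intro u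
    show κ (u + 1) - 1 = κ u - 1
    rw [h.κp u]
  · rw [avg_sub h.ρc (by fun_prop) (by fun_prop), avg_const _ h.ρi, h.κi, sub_self]

theorem z_le : mz ρ κ ≤ l ^ 2 / 12 * avg ρ (fun u => κ₁ u ^ 2) * mv ρ κ := by
  have hκ := h.κc
  unfold mz mv
  rw [← avg_mul]
  refine avg_mono h.ρc h.ρ0 (by fun_prop) (by fun_prop) (fun u => ?_)
  have := h.sup u
  nlinarith [sq_nonneg (κ u - 1)]

theorem w_sq : mw ρ κ ^ 2 ≤ mv ρ κ * mz ρ κ := by
  have hκ := h.κc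
  have h1 := cs (f := fun u => κ u - 1) (g := fun u => (κ u - 1) ^ 2) (ρ := ρ)
    (by fun_prop) (by fun_prop) h.ρc (fun u => (h.ρ0 u).le)
  unfold mw mv mz
  have e1 : avg ρ (fun u => (κ u - 1) ^ 3) = avg ρ (fun u => (κ u - 1) * (κ u - 1) ^ 2) := by
    congr 1; ext u; ring
  have e2 : avg ρ (fun u => (κ u - 1) ^ 4) = avg ρ (fun u => ((κ u - 1) ^ 2) ^ 2) := by
    congr 1; ext u; ring
  rw [e1, e2]
  exact h1

theorem κν : avg ρ (fun u => κ u * ν u) = 0 := by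
  have hκ := h.κc
  have hν := h.νc
  exact avg_der h.l0 h.ρc (by fun_prop) h.τd h.τp

/-- the speed of the centre -/
theorem F_nu : |avg ρ (fun u => Ff κ κ₂ u * κ u * ν u)| ≤
    (avg ρ (fun u => κ u ^ 4) - 1) / 6 + avg ρ (fun u => κ₁ u ^ 2) := by
  have hκ := h.κc
  have hκ1 := h.κ1c
  have hκ2 := h.κ2c
  have hτ := h.τc
  have hν := h.νc
  have h1 : avg ρ (fun u => Ff κ κ₂ u * κ u * ν u + (κ₁ u ^ 2 * ν u) +
      1 / 2 * (κ u ^ 2 * κ₁ u * τ u)) = 0 := by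
    refine avg_der (f := fun u => κ u * (1 / 2 * κ u ^ 2 * τ u + κ₁ u * ν u)) h.l0 h.ρc
      (by unfold Ff; fun_prop) (fun u => ?_) ?_
    · have := (h.κd u).mul ((((h.κd u).pow 2).const_mul (1 / 2)).mul (h.τd u) |>.add
        ((h.κ1d u).mul (h.νd u)))
      refine this.congr_deriv ?_
      unfold Ff
      norm_num
      ring
    · intro u
      show κ (u + 1) * (1 / 2 * κ (u + 1) ^ 2 * τ (u + 1) + κ₁ (u + 1) * ν (u + 1)) = _
      rw [h.κp u, h.τp u, h.κ1p u, h.νp u]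
  have h2 : avg ρ (fun u => 1 / 2 * (κ u ^ 2 * κ₁ u * τ u) + 1 / 6 * (κ u ^ 4 * ν u)) = 0 := by
    refine avg_der (f := fun u => κ u ^ 3 * τ u / 6) h.l0 h.ρc (by fun_prop) (fun u => ?_) ?_
    · have := (((h.κd u).pow 3).mul (h.τd u)).div_const 6
      refine this.congr_deriv ?_
      norm_num
      ring
    · intro u
      show κ (u + 1) ^ 3 * τ (u + 1) / 6 = _
      rw [h.κp u, h.τp u]
  have h3 := h.κν
  have h4 := h.νi
  -- the formula for the speed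
  have h5 : avg ρ (fun u => Ff κ κ₂ u * κ u * ν u) =
      avg ρ (fun u => (1 / 6 * (κ u ^ 4 - 4 * κ u + 3)) * ν u - κ₁ u ^ 2 * ν u) := by
    have e1 : avg ρ (fun u => (1 / 6 * (κ u ^ 4 - 4 * κ u + 3)) * ν u - κ₁ u ^ 2 * ν u) =
        avg ρ (fun u => ((1 / 6 * (κ u ^ 4 * ν u) - 2 / 3 * (κ u * ν u)) + 1 / 2 * ν u) -
          κ₁ u ^ 2 * ν u) := by
      congr 1; ext u; ring
    rw [e1, avg_sub h.ρc (by fun_prop) (by fun_prop), avg_add h.ρc (by fun_prop) (by fun_prop),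
      avg_sub h.ρc (by fun_prop) (by fun_prop), avg_mul, avg_mul, avg_mul, h3, h4]
    rw [avg_add h.ρc (by fun_prop) (by fun_prop), avg_mul, avg_mul] at h2
    have hF := h.Fc
    rw [avg_add h.ρc (by fun_prop) (by fun_prop), avg_add h.ρc (by fun_prop) (by fun_prop),
      avg_mul] at h1
    linarith
  rw [h5]
  have h6 : (avg ρ (fun u => κ u ^ 4) - 1) / 6 + avg ρ (fun u => κ₁ u ^ 2) =
      avg ρ (fun u => 1 / 6 * (κ u ^ 4 - 4 * κ u + 3) + κ₁ u ^ 2) := by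
    rw [avg_add h.ρc (by fun_prop) (by fun_prop), avg_mul, avg_add h.ρc (by fun_prop)
      (by fun_prop), avg_sub h.ρc (by fun_prop) (by fun_prop), avg_mul, avg_const _ h.ρi, h.κi]
    ring
  rw [h6]
  refine (avg_abs h.ρc h.ρ0 (by fun_prop)).trans
    (avg_mono h.ρc h.ρ0 (by fun_prop) (by fun_prop) (fun u => ?_))
  have hp : 0 ≤ κ u ^ 4 - 4 * κ u + 3 := by
    have : κ u ^ 4 - 4 * κ u + 3 = (κ u - 1) ^ 2 * ((κ u + 1) ^ 2 + 2) := by ring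
    rw [this]; positivity
  have hν1 : |ν u| ≤ 1 := by
    have := h.circ u
    rw [abs_le]
    constructor <;> nlinarith [sq_nonneg (τ u)]
  have e : 1 / 6 * (κ u ^ 4 - 4 * κ u + 3) * ν u - κ₁ u ^ 2 * ν u =
      (1 / 6 * (κ u ^ 4 - 4 * κ u + 3) - κ₁ u ^ 2) * ν u := by ring
  rw [e, abs_mul]
  have h7 : |1 / 6 * (κ u ^ 4 - 4 * κ u + 3) - κ₁ u ^ 2| ≤
      1 / 6 * (κ u ^ 4 - 4 * κ u + 3) + κ₁ u ^ 2 := by
    rw [abs_le]
    constructor <;> nlinarith [sq_nonneg (κ₁ u)]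
  calc _ ≤ (1 / 6 * (κ u ^ 4 - 4 * κ u + 3) + κ₁ u ^ 2) * 1 := by
        apply mul_le_mul h7 hν1 (abs_nonneg _)
        positivity
    _ = _ := mul_one _

end SD

end Pool.Agent.helper19.EL
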