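import Pool.Agent.helper19.EL.StatA

/-!
# EL: the two inequalities for one curve

`V = (l / 2π)² v` is the normalized energy excess.  `g = 2 ⟨F²⟩ - ⟨κ²⟩ ⟨F κ⟩`.

* `g_nonneg`: `0 ≤ g` for `V ≤ 1/2`.
* `speed`: `2 |⟨F κ ν⟩| ≤ ⟨F κ⟩ (7/8 - 35/4 V) + 35/4 (l / 2π)² g` for `V ≤ 1/10`.
-/

set_option autoImplicit false

open scoped Real
open MeasureTheory intervalIntegral

namespace Pool.Agent.helper19.EL

/-- the decay rate -/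
noncomputable def gr (ρ κ κ₂ : ℝ → ℝ) : ℝ := 2 * avg ρ (fun u => Ff κ κ₂ u ^ 2) -
  avg ρ (fun u => κ u ^ 2) * avg ρ (fun u => Ff κ κ₂ u * κ u)

theorem pi_sq_lt : π ^ 2 < 9.8697 := by
  have h1 := Real.pi_lt_d4
  have h2 := Real.pi_pos
  nlinarith

theorem pi_sq_gt : 9.8696 < π ^ 2 := by
  have h1 := Real.pi_gt_d6
  nlinarith

/-- algebra for `g_nonneg` -/
theorem alg0 {d v w z Q : ℝ} (hd : 0 ≤ d) (hv : 0 ≤ v) (hv2 : v ≤ 1 / 2) (hz : z ≤ Q * d)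
    (hQ : Q ≤ 1.65) :
    0 ≤ d / 3 + 4 / 9 * v + 17 / 6 * v ^ 2 + 5 / 2 * (v * w) + w ^ 2 / 2 - v ^ 3 / 8 - z / 6 := by
  have h1 : z ≤ 1.65 * d := hz.trans (mul_le_mul_of_nonneg_right hQ hd)
  have h2 : 0 ≤ 4 / 9 * v - 7 / 24 * v ^ 2 - v ^ 3 / 8 := by
    have : 0 ≤ v * (4 / 9 - 7 / 24 * v - v ^ 2 / 8) := by
      apply mul_nonneg hv
      nlinarith
    nlinarith
  nlinarith [sq_nonneg (w + 5 / 2 * v)]

/-- algebra for `speed`: `X = √Q` -/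
theorem alg1 {d v w z X ψ : ℝ} (hd : 0 ≤ d) (hv : 0 ≤ v) (hv2 : v ≤ 1 / 10) (hX0 : 0 ≤ X)
    (hX : X ^ 2 ≤ 0.329) (hz : z ≤ X ^ 2 * d) (hw : w ^ 2 ≤ v * z)
    (hψ : ψ ≤ 7 / 8 - 2.6596 * X ^ 2) :
    2 * ((1 + 6 * v + 4 * w + z - 1) / 6 + d) + d * ψ ≤
      35 / 4 * (d / 3 + 4 / 9 * v + 17 / 6 * v ^ 2 + 5 / 2 * (v * w) + w ^ 2 / 2 - v ^ 3 / 8 -
        z / 6) := by
  have hX1 : X ≤ 0.5737 := by nlinarith
  -- `w ≤ X (v + d / 4)`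
  have hw1 : w ≤ X * (v + d / 4) := by
    apply abs_le_of_sq_le_sq' _ (by positivity) |>.2
    have h1 : v * z ≤ v * (X ^ 2 * d) := mul_le_mul_of_nonneg_left hz hv
    have h2 : 0 ≤ X ^ 2 * (v - d / 4) ^ 2 := by positivity
    nlinarith
  -- coefficients
  have hdc : 0 ≤ 35 / 12 - 35 / 24 * X ^ 2 - 2 - X / 3 - X ^ 2 / 3 -
      (7 / 8 - 2.6596 * X ^ 2) := by
    nlinarith [sq_nonneg (X - 0.192)]
  have hvc : 0 ≤ 35 / 4 * (4 / 9 - 7 / 24 * v - v ^ 2 / 8) - 2 - 4 / 3 * X := by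
    nlinarith
  have h1 : 0 ≤ d * (35 / 12 - 35 / 24 * X ^ 2 - 2 - X / 3 - X ^ 2 / 3 -
      (7 / 8 - 2.6596 * X ^ 2)) := mul_nonneg hd hdc
  have h2 : 0 ≤ v * (35 / 4 * (4 / 9 - 7 / 24 * v - v ^ 2 / 8) - 2 - 4 / 3 * X) :=
    mul_nonneg hv hvc
  have h3 : d * ψ ≤ d * (7 / 8 - 2.6596 * X ^ 2) := mul_le_mul_of_nonneg_left hψ hd
  nlinarith [sq_nonneg (w + 5 / 2 * v)]

namespace SD

variable {l : ℝ} {ρ κ κ₁ κ₂ y τ ν : ℝ → ℝ} (h : SD l ρ κ κ₁ κ₂ y τ ν)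
include h

/-- `v ≤ V` -/
theorem v_le (hl : 2 * π ≤ l) : mv ρ κ ≤ l ^ 2 / (4 * π ^ 2) * mv ρ κ := by
  have hπ := Real.pi_pos
  have h1 : 1 ≤ l ^ 2 / (4 * π ^ 2) := by
    rw [le_div_iff₀ (by positivity)]
    nlinarith
  nlinarith [h.v0]

omit h in
/-- `Q = π² V / 3` -/
theorem Q_eq : l ^ 2 / 12 * mv ρ κ = π ^ 2 / 3 * (l ^ 2 / (4 * π ^ 2) * mv ρ κ) := by
  have hπ := Real.pi_pos
  field_simp
  ring

theorem g_nonneg (hl : 2 * π ≤ l) (hV : l ^ 2 / (4 * π ^ 2) * mv ρ κ ≤ 1 / 2) :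
    0 ≤ gr ρ κ κ₂ := by
  refine le_trans ?_ h.lower
  have hπ := pi_sq_lt
  have hv := h.v0
  have hd := h.d0
  have hz := h.z_le
  refine alg0 hd hv ((h.v_le hl).trans hV) (Q := l ^ 2 / 12 * mv ρ κ) (by linarith) ?_
  rw [Q_eq (l := l) (ρ := ρ) (κ := κ)]
  have hp : 0 < π ^ 2 := by positivity
  nlinarith

theorem speed (hl : 2 * π ≤ l) (hV : l ^ 2 / (4 * π ^ 2) * mv ρ κ ≤ 1 / 10) :
    2 * |avg ρ (fun u => Ff κ κ₂ u * κ u * ν u)| ≤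
      avg ρ (fun u => Ff κ κ₂ u * κ u) *
        (7 / 8 - 35 / 4 * (l ^ 2 / (4 * π ^ 2) * mv ρ κ)) +
      35 / 4 * (l ^ 2 / (4 * π ^ 2)) * gr ρ κ κ₂ := by
  have hπ0 := Real.pi_pos
  have hπ := pi_sq_lt
  have hv := h.v0
  have hd := h.d0
  have hz0 := h.z0
  have hz := h.z_le
  have hw := h.w_sq
  have hp := h.F_nu
  have hg := h.g_nonneg hl (hV.trans (by norm_num))
  have h4 := h.k4
  have hQ := Q_eq (l := l) (ρ := ρ) (κ := κ)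
  set V := l ^ 2 / (4 * π ^ 2) * mv ρ κ with hVd
  have hV0 : 0 ≤ V := by positivity
  set X := √(l ^ 2 / 12 * mv ρ κ) with hX
  have hXs : X ^ 2 = l ^ 2 / 12 * mv ρ κ := Real.sq_sqrt (by positivity)
  have h1 : 1 ≤ l ^ 2 / (4 * π ^ 2) := by
    rw [le_div_iff₀ (by positivity)]
    nlinarith
  have hA4 : 0 ≤ avg ρ (fun u => κ u ^ 4) := avg_nonneg h.ρ0 (fun u => by positivity)
  have hFK := h.F_kappa
  have hψ0 : 0 ≤ 7 / 8 - 35 / 4 * V := by linarith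
  have halg := alg1 (d := avg ρ (fun u => κ₁ u ^ 2)) (v := mv ρ κ) (w := mw ρ κ)
    (z := mz ρ κ) (X := X) (ψ := 7 / 8 - 35 / 4 * V) hd hv ((h.v_le hl).trans hV)
    (Real.sqrt_nonneg _) (by rw [hXs, hQ]; nlinarith) (by rw [hXs]; linarith) hw
    (by
      rw [hXs, hQ]
      nlinarith)
  have hl2 := h.lower
  rw [← h4] at halg
  have h5 : 35 / 4 * gr ρ κ κ₂ ≤ 35 / 4 * (l ^ 2 / (4 * π ^ 2)) * gr ρ κ κ₂ := by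
    nlinarith
  have h6 : -(avg ρ (fun u => κ₁ u ^ 2) * (7 / 8 - 35 / 4 * V)) ≤
      avg ρ (fun u => Ff κ κ₂ u * κ u) * (7 / 8 - 35 / 4 * V) := by
    rw [hFK]
    nlinarith
  have h7 : avg ρ (fun u => κ₁ u ^ 2) / 3 + 4 / 9 * mv ρ κ + 17 / 6 * mv ρ κ ^ 2 +
    5 / 2 * (mv ρ κ * mw ρ κ) + mw ρ κ ^ 2 / 2 - mv ρ κ ^ 3 / 8 - mz ρ κ / 6 ≤ gr ρ κ κ₂ := hl2
  linarith

end SD

end Pool.Agent.helper19.EL
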